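import Mathlib

/-! Estimates for the Chebyshev polynomials off the interval `[-1, 1]`. -/

set_option autoImplicit false

open Filter Topology Polynomial

namespace Pool.Agent.Y296.CH

/-- `w` is at distance at least `δ` from the segment `[-1, 1]`. -/
def Away (δ : ℝ) (w : ℂ) : Prop := ∀ s : ℝ, |s| ≤ 1 → δ ≤ ‖w - s‖

/-- The value of the Chebyshev polynomial. -/
noncomputable def tch (n : ℕ) (w : ℂ) : ℂ := (Chebyshev.T ℂ (n : ℤ)).eval w

lemma tch_cos (n : ℕ) (θ : ℂ) : tch n (Complex.cos θ) = Complex.cos (n * θ) := by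
  unfold tch
  rw [Chebyshev.T_complex_cos]
  norm_num

lemma normSq_cos (x y : ℝ) :
    Complex.normSq (Complex.cos (x + y * Complex.I)) = Real.cos x ^ 2 + Real.sinh y ^ 2 := by
  have h : Complex.cos (x + y * Complex.I) =
      ((Real.cos x * Real.cosh y : ℝ) : ℂ) + ((-(Real.sin x * Real.sinh y) : ℝ) : ℂ) * Complex.I := by
    rw [Complex.cos_add_mul_I]
    push_cast
    ring
  rw [h, Complex.normSq_add_mul_I]
  have h1 := Real.cosh_sq y
  have h2 := Real.sin_sq_add_cos_sq x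
  have h3 : Real.sin x ^ 2 = 1 - Real.cos x ^ 2 := by linarith
  calc (Real.cos x * Real.cosh y) ^ 2 + (-(Real.sin x * Real.sinh y)) ^ 2
      = Real.cos x ^ 2 * Real.cosh y ^ 2 + Real.sin x ^ 2 * Real.sinh y ^ 2 := by ring
    _ = _ := by rw [h1, h3]; ring

lemma normSq_cos_sub (x y : ℝ) :
    Complex.normSq (Complex.cos (x + y * Complex.I) - (Real.cos x : ℝ)) ≤ Real.sinh y ^ 2 := by
  have h : Complex.cos (x + y * Complex.I) - (Real.cos x : ℝ) =
      ((Real.cos x * (Real.cosh y - 1) : ℝ) : ℂ) +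
        ((-(Real.sin x * Real.sinh y) : ℝ) : ℂ) * Complex.I := by
    rw [Complex.cos_add_mul_I]
    push_cast
    ring
  rw [h, Complex.normSq_add_mul_I]
  have h1 := Real.cosh_sq y
  have h2 := Real.sin_sq_add_cos_sq x
  have h3 : Real.sin x ^ 2 = 1 - Real.cos x ^ 2 := by linarith
  have h4 := Real.one_le_cosh y
  have h5 : (Real.cosh y - 1) ^ 2 ≤ Real.sinh y ^ 2 := by nlinarith
  have h6 : 0 ≤ Real.cos x ^ 2 := sq_nonneg _
  calc (Real.cos x * (Real.cosh y - 1)) ^ 2 + (-(Real.sin x * Real.sinh y)) ^ 2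
      = Real.cos x ^ 2 * (Real.cosh y - 1) ^ 2 + Real.sin x ^ 2 * Real.sinh y ^ 2 := by ring
    _ ≤ Real.cos x ^ 2 * Real.sinh y ^ 2 + Real.sin x ^ 2 * Real.sinh y ^ 2 := by gcongr
    _ = Real.sinh y ^ 2 := by rw [h3]; ring

/-- Lower bound for `T_n` off a neighbourhood of the segment. -/
theorem tch_low {δ : ℝ} (hδ : 0 ≤ δ) {w : ℂ} (hw : Away δ w) (n : ℕ) :
    ((1 + δ) ^ n - 1) / 2 ≤ ‖tch n w‖ := by
  obtain ⟨θ, rfl⟩ := Complex.cos_surjective w
  set x := θ.re with hx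
  set y := θ.im with hy
  have hθ : θ = x + y * Complex.I := (Complex.re_add_im θ).symm
  rw [tch_cos]
  have h1 : (n : ℂ) * θ = ((n * x : ℝ) : ℂ) + ((n * y : ℝ) : ℂ) * Complex.I := by
    rw [hθ]; push_cast; ring
  -- the distance
  have h2 : δ ≤ |Real.sinh y| := by
    have h3 := hw (Real.cos x) (Real.abs_cos_le_one x)
    have h4 := normSq_cos_sub x y
    rw [← hθ, Complex.normSq_eq_norm_sq] at h4
    have h5 := abs_le_of_sq_le_sq' (h4.trans (le_of_eq (sq_abs (Real.sinh y)).symm)) (abs_nonneg _)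
    exact h3.trans h5.2
  have h6 : |Real.sinh (n * y)| ≤ ‖Complex.cos (n * θ)‖ := by
    have h7 := normSq_cos (n * x) (n * y)
    rw [← h1, Complex.normSq_eq_norm_sq] at h7
    have h8 : Real.sinh (n * y) ^ 2 ≤ ‖Complex.cos (n * θ)‖ ^ 2 := by
      rw [h7]; nlinarith [sq_nonneg (Real.cos (n * x))]
    exact abs_le_of_sq_le_sq h8 (norm_nonneg _)
  refine le_trans ?_ h6
  have hs : ∀ z : ℝ, |Real.sinh z| = Real.sinh |z| := fun z => Real.abs_sinh z
  rw [hs] at h2 ⊢
  have h9 : |n * y| = n * |y| := by rw [abs_mul, Nat.abs_cast]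
  rw [h9]
  have h10 : 1 + δ ≤ Real.exp |y| := by
    rw [← Real.cosh_add_sinh]
    linarith [Real.one_le_cosh |y|]
  have h11 : (1 + δ) ^ n ≤ Real.exp (n * |y|) := by
    rw [Real.exp_nat_mul]
    exact pow_le_pow_left₀ (by linarith) h10 n
  have h12 : Real.exp (-(n * |y|)) ≤ 1 := by
    rw [Real.exp_le_one_iff]
    have : 0 ≤ (n : ℝ) * |y| := by positivity
    linarith
  rw [Real.sinh_eq]
  linarith

/-- critical values of `T_n` -/
theorem tch_crit {n : ℕ} (hn : 0 < n) {w : ℂ}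
    (hw : (derivative (Chebyshev.T ℂ (n : ℤ))).eval w = 0) : tch n w = 1 ∨ tch n w = -1 := by
  rw [Chebyshev.T_derivative_eq_U, eval_mul] at hw
  have hU : (Chebyshev.U ℂ ((n : ℤ) - 1)).eval w = 0 := by
    rcases mul_eq_zero.1 hw with h | h
    · exfalso
      have h1 : ((n : ℂ)) = 0 := by simpa using h
      have h2 : (n : ℂ) ≠ 0 := by exact_mod_cast hn.ne'
      exact h2 h1
    · exact h
  obtain ⟨θ, rfl⟩ := Complex.cos_surjective w
  have h1 := Chebyshev.U_complex_cos θ ((n : ℤ) - 1)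
  rw [hU, zero_mul] at h1
  have h2 : Complex.sin (n * θ) = 0 := by
    rw [h1]; congr 1; push_cast; ring
  rw [tch_cos]
  have h3 := Complex.sin_sq_add_cos_sq (n * θ)
  rw [h2] at h3
  have h4 : (Complex.cos (n * θ) - 1) * (Complex.cos (n * θ) + 1) = 0 := by
    linear_combination h3
  rcases mul_eq_zero.1 h4 with h5 | h5
  · left; linear_combination h5
  · right; linear_combination h5

end Pool.Agent.Y296.CH
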