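import Mathlib
import Pool.Agent.Y296.CH.A
import Pool.Agent.H762R2.RtD
import Pool.Agent.H462R2.AP1
import Pool.Agent.TH864.ZO.ZC

/-! Rational maps `R (T_n z) + t`: behaviour near infinity, critical points. -/

set_option autoImplicit false

open Filter Topology Polynomial
open scoped OnePoint

namespace Pool.Agent.Y296.CH

open Pool.Agent.H762R2.Rt Pool.Agent.H462R2.AP
open Pool.Agent.Helper114.Herman Pool.Agent.Helper114.Konig

lemma poly_up {p : ℂ[X]} {k : ℕ} (h : p.natDegree ≤ k) :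
    ∃ c : ℝ, 0 < c ∧ ∀ u : ℂ, 1 ≤ ‖u‖ → ‖p.eval u‖ ≤ c * ‖u‖ ^ k := by
  refine ⟨(∑ i ∈ Finset.range (k + 1), ‖p.coeff i‖) + 1, by positivity, fun u hu => ?_⟩
  rw [eval_eq_sum_range' (Nat.lt_succ_of_le h)]
  refine (norm_sum_le _ _).trans ?_
  have h1 : ∀ i ∈ Finset.range (k + 1), ‖p.coeff i * u ^ i‖ ≤ ‖p.coeff i‖ * ‖u‖ ^ k := by
    intro i hi
    rw [norm_mul, norm_pow]
    have h2 : ‖u‖ ^ i ≤ ‖u‖ ^ k := pow_le_pow_right₀ hu (Nat.lt_succ_iff.1 (Finset.mem_range.1 hi))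
    exact mul_le_mul_of_nonneg_left h2 (norm_nonneg _)
  refine (Finset.sum_le_sum h1).trans ?_
  rw [← Finset.sum_mul]
  apply mul_le_mul_of_nonneg_right _ (by positivity)
  linarith

lemma poly_low {p : ℂ[X]} (hp : p ≠ 0) :
    ∃ c : ℝ, 0 < c ∧ ∃ L : ℝ, 1 ≤ L ∧ ∀ u : ℂ, L ≤ ‖u‖ → c * ‖u‖ ^ p.natDegree ≤ ‖p.eval u‖ := by
  have hl : 0 < ‖p.leadingCoeff‖ := norm_pos_iff.2 (leadingCoeff_ne_zero.2 hp)
  rcases Nat.eq_zero_or_pos p.natDegree with h0 | h0
  · refine ⟨‖p.leadingCoeff‖, hl, 1, le_rfl, fun u _ => ?_⟩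
    rw [h0, pow_zero, mul_one, leadingCoeff, h0]
    conv_rhs => rw [eq_C_of_natDegree_eq_zero h0]
    rw [eval_C]
  · have hd : p.eraseLead.natDegree ≤ p.natDegree - 1 := eraseLead_natDegree_le p
    obtain ⟨c, hc, hc'⟩ := poly_up hd
    refine ⟨‖p.leadingCoeff‖ / 2, by positivity, max 1 (2 * c / ‖p.leadingCoeff‖),
      le_max_left _ _, fun u hu => ?_⟩
    have hu1 : 1 ≤ ‖u‖ := (le_max_left _ _).trans hu
    have hu2 : 2 * c / ‖p.leadingCoeff‖ ≤ ‖u‖ := (le_max_right _ _).trans hu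
    rw [div_le_iff₀ hl] at hu2
    have h1 : p.eval u = p.eraseLead.eval u + p.leadingCoeff * u ^ p.natDegree := by
      conv_lhs => rw [← eraseLead_add_C_mul_X_pow p]
      rw [eval_add, eval_mul, eval_C, eval_pow, eval_X]
    have h2 := hc' u hu1
    have h3 : ‖u‖ ^ p.natDegree = ‖u‖ ^ (p.natDegree - 1) * ‖u‖ := by
      rw [← pow_succ]; congr 1; omega
    have h4 : 0 < ‖u‖ ^ (p.natDegree - 1) := by positivity
    have h5 : ‖p.leadingCoeff * u ^ p.natDegree‖ = ‖p.leadingCoeff‖ * ‖u‖ ^ p.natDegree := by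
      rw [norm_mul, norm_pow]
    have h6 := norm_sub_norm_le (p.leadingCoeff * u ^ p.natDegree) (-p.eraseLead.eval u)
    have h7 : p.leadingCoeff * u ^ p.natDegree - -p.eraseLead.eval u = p.eval u := by
      rw [h1]; ring
    rw [h7, norm_neg, h5] at h6
    rw [h3] at h6 ⊢
    nlinarith

/-- `P / Q` near infinity, finite value. -/
lemma far_fin {P Q : ℂ[X]} (hQ : Q ≠ 0) (hle : P.natDegree ≤ Q.natDegree) :
    ∃ A : ℝ, 0 < A ∧ ∃ L : ℝ, 1 ≤ L ∧ ∀ u : ℂ, L ≤ ‖u‖ → Q.eval u ≠ 0 ∧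
      ‖P.eval u / Q.eval u - P.coeff Q.natDegree / Q.coeff Q.natDegree‖ ≤ A / ‖u‖ := by
  obtain ⟨c, hc, L, hL, hlow⟩ := poly_low hQ
  set D := Q.natDegree with hD
  set β := P.coeff D / Q.coeff D with hβ
  have hQD : Q.coeff D ≠ 0 := leadingCoeff_ne_zero.2 hQ
  set S := P - C β * Q with hS
  have hSD : S.coeff D = 0 := by
    rw [hS, coeff_sub, coeff_C_mul, hβ]; field_simp; ring
  have hSd : S.natDegree ≤ D := by
    refine (natDegree_sub_le _ _).trans (max_le hle ?_)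
    exact natDegree_C_mul_le _ _
  have key : ∃ c' : ℝ, 0 < c' ∧ ∀ u : ℂ, 1 ≤ ‖u‖ → ‖S.eval u‖ * ‖u‖ ≤ c' * ‖u‖ ^ D := by
    rcases Nat.eq_zero_or_pos D with h0 | h0
    · have hS0 : S = 0 := by
        have h1 : S.natDegree ≤ 0 := by rw [← h0]; exact hSd
        rw [eq_C_of_natDegree_le_zero h1]
        rw [h0] at hSD
        rw [hSD, C_0]
      refine ⟨1, one_pos, fun u hu => ?_⟩
      rw [hS0, eval_zero, norm_zero, zero_mul]
      positivity
    · have hSd' : S.natDegree ≤ D - 1 := by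
        rcases lt_or_eq_of_le hSd with h | h
        · omega
        · exfalso
          have : S ≠ 0 := by
            intro h1
            rw [h1, natDegree_zero] at h
            omega
          have h2 := leadingCoeff_ne_zero.2 this
          rw [leadingCoeff, h] at h2
          exact h2 hSD
      obtain ⟨c', hc', hc''⟩ := poly_up hSd'
      refine ⟨c', hc', fun u hu => ?_⟩
      have h3 : ‖u‖ ^ D = ‖u‖ ^ (D - 1) * ‖u‖ := by
        rw [← pow_succ]; congr 1; omega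
      rw [h3, ← mul_assoc]
      exact mul_le_mul_of_nonneg_right (hc'' u hu) (norm_nonneg _)
  obtain ⟨c', hc', hkey⟩ := key
  refine ⟨c' / c, by positivity, L, hL, fun u hu => ?_⟩
  have hu1 : 1 ≤ ‖u‖ := hL.trans hu
  have hu0 : 0 < ‖u‖ := by linarith
  have h1 := hlow u hu
  have h2 : 0 < c * ‖u‖ ^ D := by positivity
  have h3 : 0 < ‖Q.eval u‖ := lt_of_lt_of_le h2 h1
  have h4 : Q.eval u ≠ 0 := norm_pos_iff.1 h3
  refine ⟨h4, ?_⟩
  have h5 : P.eval u / Q.eval u - β = S.eval u / Q.eval u := by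
    rw [hS, eval_sub, eval_mul, eval_C]; field_simp
  rw [h5, norm_div, div_le_div_iff₀ h3 hu0, div_mul_eq_mul_div, le_div_iff₀ hc]
  have h6 := hkey u hu1
  calc ‖S.eval u‖ * ‖u‖ * c ≤ c' * ‖u‖ ^ D * c := mul_le_mul_of_nonneg_right h6 hc.le
    _ = c' * (c * ‖u‖ ^ D) := by ring
    _ ≤ c' * ‖Q.eval u‖ := mul_le_mul_of_nonneg_left h1 hc'.le

/-- `P / Q` near infinity, infinite value. -/
lemma far_inf {P Q : ℂ[X]} (hQ : Q ≠ 0) (hlt : Q.natDegree < P.natDegree) :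
    ∃ a : ℝ, 0 < a ∧ ∃ L : ℝ, 1 ≤ L ∧ ∀ u : ℂ, L ≤ ‖u‖ → Q.eval u ≠ 0 ∧
      a * ‖u‖ ≤ ‖P.eval u / Q.eval u‖ := by
  have hP : P ≠ 0 := by
    intro h; rw [h, natDegree_zero] at hlt; omega
  obtain ⟨c, hc, L, hL, hlow⟩ := poly_low hQ
  obtain ⟨c₁, hc₁, L₁, hL₁, hlow₁⟩ := poly_low hP
  obtain ⟨c₂, hc₂, hup⟩ := poly_up (le_refl Q.natDegree)
  refine ⟨c₁ / c₂, by positivity, max L L₁, hL.trans (le_max_left _ _), fun u hu => ?_⟩
  have hu0 : L ≤ ‖u‖ := (le_max_left _ _).trans hu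
  have hu1 : L₁ ≤ ‖u‖ := (le_max_right _ _).trans hu
  have hu2 : 1 ≤ ‖u‖ := hL.trans hu0
  have h1 := hlow u hu0
  have h2 : 0 < c * ‖u‖ ^ Q.natDegree := by positivity
  have h3 : 0 < ‖Q.eval u‖ := lt_of_lt_of_le h2 h1
  refine ⟨norm_pos_iff.1 h3, ?_⟩
  rw [norm_div, le_div_iff₀ h3]
  have h4 := hlow₁ u hu1
  have h5 := hup u hu2
  have h6 : ‖u‖ ^ (Q.natDegree + 1) ≤ ‖u‖ ^ P.natDegree := pow_le_pow_right₀ hu2 hlt
  calc c₁ / c₂ * ‖u‖ * ‖Q.eval u‖ ≤ c₁ / c₂ * ‖u‖ * (c₂ * ‖u‖ ^ Q.natDegree) := by gcongr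
    _ = c₁ * ‖u‖ ^ (Q.natDegree + 1) := by field_simp; ring
    _ ≤ c₁ * ‖u‖ ^ P.natDegree := by gcongr
    _ ≤ _ := h4

/-- the numerator and the denominator of `R (T_n z) + t` -/
noncomputable def num (P Q : ℂ[X]) (t : ℂ) (n : ℕ) : ℂ[X] :=
  (P + C t * Q).comp (Chebyshev.T ℂ (n : ℤ))

noncomputable def den (Q : ℂ[X]) (n : ℕ) : ℂ[X] := Q.comp (Chebyshev.T ℂ (n : ℤ))

lemma num_eval (P Q : ℂ[X]) (t : ℂ) (n : ℕ) (z : ℂ) :
    (num P Q t n).eval z = P.eval (tch n z) + t * Q.eval (tch n z) := by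
  simp [num, tch, eval_comp]

lemma den_eval (Q : ℂ[X]) (n : ℕ) (z : ℂ) : (den Q n).eval z = Q.eval (tch n z) := by
  simp [den, tch, eval_comp]

lemma natDegree_T' (n : ℕ) : (Chebyshev.T ℂ (n : ℤ)).natDegree = n := by
  rw [Chebyshev.natDegree_T]; simp

lemma natDegree_max_add (P Q : ℂ[X]) (t : ℂ) :
    max (P + C t * Q).natDegree Q.natDegree = max P.natDegree Q.natDegree := by
  have h1 : ∀ (P : ℂ[X]) (t : ℂ), max (P + C t * Q).natDegree Q.natDegree ≤
      max P.natDegree Q.natDegree := by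
    intro P t
    refine max_le ?_ (le_max_right _ _)
    refine (natDegree_add_le _ _).trans (max_le_max le_rfl (natDegree_C_mul_le _ _))
  refine le_antisymm (h1 P t) ?_
  have h2 := h1 (P + C t * Q) (-t)
  have h3 : P + C t * Q + C (-t) * Q = P := by rw [C_neg]; ring
  rwa [h3] at h2

lemma degree_fam (P Q : ℂ[X]) (t : ℂ) (n : ℕ) :
    max (num P Q t n).natDegree (den Q n).natDegree = max P.natDegree Q.natDegree * n := by
  rw [num, den, natDegree_comp, natDegree_comp, natDegree_T', ← natDegree_max_add P Q t,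
    max_mul_of_nonneg _ _ (Nat.zero_le n)]

lemma coprime_fam {P Q : ℂ[X]} (hc : IsCoprime P Q) (t : ℂ) (n : ℕ) :
    IsCoprime (num P Q t n) (den Q n) := by
  have h1 : IsCoprime (P + C t * Q) Q := by
    have := IsCoprime.add_mul_right_left hc (C t)
    exact this
  have h2 := h1.map (compRingHom (Chebyshev.T ℂ (n : ℤ)))
  simpa [num, den] using h2

lemma den_ne {Q : ℂ[X]} (hQ : Q ≠ 0) {n : ℕ} (hn : 0 < n) : den Q n ≠ 0 := by
  unfold den
  intro h
  rw [comp_eq_zero_iff] at h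
  rcases h with h | ⟨h1, h2⟩
  · exact hQ h
  · have h3 := congrArg natDegree h2
    rw [natDegree_T', natDegree_C] at h3
    omega

/-- points with nonzero denominator -/
lemma map_fin {P Q : ℂ[X]} {t : ℂ} {n : ℕ} {f : OnePoint ℂ → OnePoint ℂ}
    (hf : IsRat f (num P Q t n) (den Q n)) {z : ℂ} (hz : Q.eval (tch n z) ≠ 0) :
    f (z : OnePoint ℂ) = ((P.eval (tch n z) / Q.eval (tch n z) + t : ℂ) : OnePoint ℂ) := by
  rw [hf.eval z (by rwa [den_eval]), num_eval, den_eval]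
  congr 1
  field_simp

/-- points with zero denominator -/
lemma map_pole {P Q : ℂ[X]} {t : ℂ} {n : ℕ} {f : OnePoint ℂ → OnePoint ℂ}
    (hf : IsRat f (num P Q t n) (den Q n)) (hn : 0 < n) (hD : 1 ≤ max P.natDegree Q.natDegree)
    {z : ℂ} (hz : Q.eval (tch n z) = 0) : f (z : OnePoint ℂ) = ∞ := by
  have hdeg := degree_fam P Q t n
  have h1 := rat_formula hf hdeg.symm (Nat.mul_pos hD hn) (u := z) (v := 1) (Or.inr one_ne_zero)
  rw [pr_one] at h1
  have h2 : hom (den Q n) (max P.natDegree Q.natDegree * n) z 1 = 0 := by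
    rw [hom_ne (by rw [← hdeg]; exact le_max_right _ _) one_ne_zero, div_one, den_eval, hz, mul_zero]
  rw [h1, h2, pr_zero]

/-- Hyperbolicity from the behaviour of the marked values. -/
theorem hyp_of_marks {P Q : ℂ[X]} (hc : IsCoprime P Q)
    (hD : 1 ≤ max P.natDegree Q.natDegree) {t : ℂ} {n : ℕ} (hn : 0 < n)
    {f : OnePoint ℂ → OnePoint ℂ} (hf : IsRat f (num P Q t n) (den Q n)) (hinf : Sinks f ∞)
    (hm : ∀ x : ℂ, Q.eval x ≠ 0 → (x = 1 ∨ x = -1 ∨ (wro P Q).eval x = 0) →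
      Sinks f ((P.eval x / Q.eval x + t : ℂ) : OnePoint ℂ)) :
    Hyp (num P Q t n) (den Q n) := by
  refine ⟨coprime_fam hc t n, f, hf.cont, hf.eval, fun c hnot => ?_⟩
  induction c using OnePoint.rec with
  | infty => exact hinf
  | coe z =>
    apply sinks_of_image hf.cont
    by_cases hq : Q.eval (tch n z) = 0
    · rw [map_pole hf hn hD hq]; exact hinf
    rw [map_fin hf hq]
    by_cases hT : (derivative (Chebyshev.T ℂ (n : ℤ))).eval z = 0
    · rcases tch_crit hn hT with h | h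
      · exact hm _ hq (Or.inl h)
      · exact hm _ hq (Or.inr (Or.inl h))
    by_cases hW : (wro P Q).eval (tch n z) = 0
    · exact hm _ hq (Or.inr (Or.inr hW))
    exfalso
    apply hnot
    have hQ'z : (den Q n).eval z ≠ 0 := by rwa [den_eval]
    have hder := ((num P Q t n).hasStrictDerivAt z).fun_div ((den Q n).hasStrictDerivAt z) hQ'z
    have hne : ((derivative (num P Q t n)).eval z * (den Q n).eval z -
        (num P Q t n).eval z * (derivative (den Q n)).eval z) / ((den Q n).eval z) ^ 2 ≠ 0 := by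
      apply div_ne_zero _ (pow_ne_zero _ hQ'z)
      have e1 : (derivative (num P Q t n)).eval z * (den Q n).eval z -
          (num P Q t n).eval z * (derivative (den Q n)).eval z =
          (derivative (Chebyshev.T ℂ (n : ℤ))).eval z * (wro P Q).eval (tch n z) := by
        have e2 : derivative (num P Q t n) = derivative (Chebyshev.T ℂ (n : ℤ)) *
            (derivative (P + C t * Q)).comp (Chebyshev.T ℂ (n : ℤ)) := derivative_comp _ _
        have e3 : derivative (den Q n) = derivative (Chebyshev.T ℂ (n : ℤ)) *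
            (derivative Q).comp (Chebyshev.T ℂ (n : ℤ)) := derivative_comp _ _
        rw [e2, e3, num_eval, den_eval, wro]
        simp only [eval_mul, eval_comp, derivative_add, eval_add, derivative_C_mul, eval_C,
          eval_sub, tch]
        ring
      rw [e1]
      exact mul_ne_zero hT hW
    obtain ⟨U, hU, hinj⟩ := injOn_of_deriv hder hne
    have hUQ : {x : ℂ | (den Q n).eval x ≠ 0} ∈ 𝓝 z :=
      (isOpen_ne_fun (den Q n).continuous continuous_const).mem_nhds hQ'z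
    refine ⟨(fun x : ℂ => (x : OnePoint ℂ)) '' (U ∩ {x : ℂ | (den Q n).eval x ≠ 0}), ?_, ?_⟩
    · exact (OnePoint.isOpenEmbedding_coe (X := ℂ)).isOpenMap.image_mem_nhds
        (inter_mem hU hUQ)
    · rintro _ ⟨x, ⟨hx, hxQ⟩, rfl⟩ _ ⟨y, ⟨hy, hyQ⟩, rfl⟩ hxy
      simp only at hxy
      rw [hf.eval x hxQ, hf.eval y hyQ, OnePoint.coe_eq_coe] at hxy
      rw [hinj hx hy hxy]

end Pool.Agent.Y296.CH
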