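import Mathlib
import Pool.Agent.Y296.CH.B

/-! Rational maps `R (T_n z) + t`: attraction. -/

set_option autoImplicit false

open Filter Topology Polynomial
open scoped OnePoint

namespace Pool.Agent.Y296.CH

open Pool.Agent.H762R2.Rt Pool.Agent.H462R2.AP
open Pool.Agent.Helper114.Herman Pool.Agent.Helper114.Konig
open Pool.Agent.TH864.ZO (sinks_of_disc)

lemma Away.mono {δ δ' : ℝ} (h : δ' ≤ δ) {w : ℂ} (hw : Away δ w) : Away δ' w :=
  fun s hs => h.trans (hw s hs)

lemma Away.near {δ ε : ℝ} {w y : ℂ} (hw : Away (δ + ε) w) (hy : ‖y - w‖ ≤ ε) : Away δ y := by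
  intro s hs
  have h1 := hw s hs
  have h2 := norm_sub_norm_le (w - s) (w - y)
  have h3 : w - s - (w - y) = y - s := by ring
  rw [h3, norm_sub_rev w y] at h2
  linarith

lemma away_of_norm {δ : ℝ} {w : ℂ} (hw : 1 + δ ≤ ‖w‖) : Away δ w := by
  intro s hs
  have h1 := norm_sub_norm_le w s
  rw [Complex.norm_real, Real.norm_eq_abs] at h1
  linarith

variable {P Q : ℂ[X]} {t : ℂ} {n : ℕ} {f : OnePoint ℂ → OnePoint ℂ}

lemma differentiable_tch (n : ℕ) : Differentiable ℂ (tch n) := by
  unfold tch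
  exact (Chebyshev.T ℂ (n : ℤ)).differentiable

/-- the value at infinity is the limit -/
lemma infty_mem_closure (hf : Continuous f) {S : Set (OnePoint ℂ)} (hS : IsClosed S) {r : ℝ}
    (h : ∀ z : ℂ, r ≤ ‖z‖ → f (z : OnePoint ℂ) ∈ S) : f ∞ ∈ S := by
  have htend : Tendsto (fun z : ℂ => f (z : OnePoint ℂ)) (cocompact ℂ) (𝓝 (f ∞)) := by
    have h1 := OnePoint.tendsto_coe_infty (X := ℂ)
    rw [coclosedCompact_eq_cocompact] at h1
    exact (hf.tendsto ∞).comp h1
  apply hS.mem_of_tendsto htend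
  filter_upwards [(tendsto_norm_cocompact_atTop (E := ℂ)).eventually_ge_atTop r] with z hz
  exact h z hz

theorem sinks_fin {β : ℂ} {A L δ : ℝ} (hf : IsRat f (num P Q t n) (den Q n))
    (hfar : ∀ u : ℂ, L ≤ ‖u‖ → Q.eval u ≠ 0 ∧ ‖P.eval u / Q.eval u - β‖ ≤ A / ‖u‖)
    (hA : 0 < A) (hδ : 0 < δ) (hL : L ≤ ((1 + δ) ^ n - 1) / 2)
    (hμ : 4 * A ≤ δ * (((1 + δ) ^ n - 1) / 2)) (hβ : Away (2 * δ) (β + t)) :
    (∀ w : ℂ, Away δ w → Sinks f (w : OnePoint ℂ)) ∧ Sinks f ∞ := by
  set μ := ((1 + δ) ^ n - 1) / 2 with hμd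
  have hμ0 : 0 < μ := by
    by_contra h
    rw [not_lt] at h
    nlinarith
  set F : ℂ → ℂ := fun w => P.eval (tch n w) / Q.eval (tch n w) + t with hF
  have hstep : ∀ w : ℂ, Away δ w → Q.eval (tch n w) ≠ 0 ∧ f (w : OnePoint ℂ) = ((F w : ℂ) : OnePoint ℂ) ∧
      ‖F w - (β + t)‖ ≤ δ / 4 := by
    intro w hw
    have h1 := tch_low hδ.le hw n
    obtain ⟨h2, h3⟩ := hfar (tch n w) (hL.trans h1)
    refine ⟨h2, map_fin hf h2, ?_⟩
    have h4 : F w - (β + t) = P.eval (tch n w) / Q.eval (tch n w) - β := by rw [hF]; ring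
    rw [h4]
    refine h3.trans ?_
    have h5 : A / ‖tch n w‖ ≤ A / μ := div_le_div_of_nonneg_left hA.le hμ0 h1
    refine h5.trans ?_
    rw [div_le_iff₀ hμ0]
    linarith
  have hball : ∀ y : ℂ, ‖y - (β + t)‖ ≤ δ → Away δ y := by
    intro y hy
    refine Away.near (δ := δ) (ε := δ) ?_ hy
    have : δ + δ = 2 * δ := by ring
    rw [this]; exact hβ
  have hdiff : ∀ w : ℂ, Away δ w → DifferentiableAt ℂ F w := by
    intro w hw
    have h1 := (hstep w hw).1
    have h2 : DifferentiableAt ℂ (tch n) w := (differentiable_tch n) w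
    exact ((P.differentiable.differentiableAt.comp w h2).div
      (Q.differentiable.differentiableAt.comp w h2) h1).add_const t
  have hdisc : ∀ y : ℂ, ‖y - (β + t)‖ ≤ δ / 2 → Sinks f (y : OnePoint ℂ) := by
    intro y hy
    refine sinks_of_disc (F := F) (v := β + t) (R := δ / 2) (q := 1 / 2) (τ := 1) (by linarith)
      (by norm_num) (by norm_num) one_pos ?_ ?_ ?_ hy
    · intro y hy
      rw [Function.iterate_one]
      exact (hstep y (hball y (by linarith))).2.1
    · intro y hy
      have := (hstep y (hball y (by linarith))).2.2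
      linarith
    · intro y z hy hz
      refine Convex.norm_image_sub_le_of_norm_deriv_le (𝕜 := ℂ)
        (s := Metric.closedBall (β + t) (δ / 2)) (fun w hw => ?_) (fun w hw => ?_)
        (convex_closedBall _ _) ?_ ?_
      · rw [mem_closedBall_iff_norm] at hw
        exact hdiff w (hball w (by linarith))
      · rw [mem_closedBall_iff_norm] at hw
        have h1 : deriv (fun x => F x - (β + t)) w = deriv F w := by rw [deriv_sub_const]
        rw [← h1]
        have h2 : ∀ x : ℂ, ‖x - w‖ ≤ δ / 2 → ‖x - (β + t)‖ ≤ δ := by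
          intro x hx
          have h3 : x - (β + t) = (x - w) + (w - (β + t)) := by ring
          rw [h3]
          refine (norm_add_le _ _).trans ?_
          linarith
        have h4 := Complex.norm_deriv_le_of_forall_mem_sphere_norm_le (c := w) (R := δ / 2)
          (C := δ / 4) (f := fun x => F x - (β + t)) (by linarith) ?_ ?_
        · refine h4.trans (le_of_eq ?_)
          field_simp; norm_num
        · apply DifferentiableOn.diffContOnCl
          intro x hx
          apply DifferentiableAt.differentiableWithinAt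
          rw [closure_ball w (by linarith : δ / 2 ≠ 0), mem_closedBall_iff_norm] at hx
          exact (hdiff x (hball x (h2 x hx))).sub_const _
        · intro x hx
          rw [mem_sphere_iff_norm] at hx
          exact (hstep x (hball x (h2 x hx.le))).2.2
      · rw [mem_closedBall_iff_norm]; exact hz
      · rw [mem_closedBall_iff_norm]; exact hy
  refine ⟨fun w hw => ?_, ?_⟩
  · apply sinks_of_image hf.cont
    obtain ⟨-, h1, h2⟩ := hstep w hw
    rw [h1]
    exact hdisc _ (by linarith)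
  · apply sinks_of_image hf.cont
    have hclosed : IsClosed ((fun x : ℂ => (x : OnePoint ℂ)) '' Metric.closedBall (β + t) (δ / 2)) :=
      ((isCompact_closedBall _ _).image OnePoint.continuous_coe).isClosed
    obtain ⟨y, hy, hy'⟩ := infty_mem_closure hf.cont hclosed (r := 1 + δ) (by
      intro z hz
      obtain ⟨-, h1, h2⟩ := hstep z (away_of_norm hz)
      exact ⟨F z, by rw [mem_closedBall_iff_norm]; linarith, h1.symm⟩)
    rw [← hy']
    rw [mem_closedBall_iff_norm] at hy
    exact hdisc y hy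

/-- escape -/
theorem sinks_esc {ρ : ℝ} {F : ℂ → ℂ} (hf : Continuous f) (hρ : 1 ≤ ρ)
    (hF : ∀ w : ℂ, ρ ≤ ‖w‖ → f (w : OnePoint ℂ) = ((F w : ℂ) : OnePoint ℂ) ∧ 2 * ‖w‖ ≤ ‖F w‖) :
    (∀ w : ℂ, ρ ≤ ‖w‖ → Sinks f (w : OnePoint ℂ)) ∧ Sinks f ∞ := by
  have hinf : f ∞ = ∞ := by
    have h1 := OnePoint.tendsto_coe_infty (X := ℂ)
    have h2 : Tendsto (fun z : ℂ => f (z : OnePoint ℂ)) (cocompact ℂ) (𝓝 (f ∞)) := by
      rw [coclosedCompact_eq_cocompact] at h1
      exact (hf.tendsto ∞).comp h1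
    have h3 : Tendsto (fun z : ℂ => f (z : OnePoint ℂ)) (cocompact ℂ) (𝓝 ∞) := by
      have h4 : Tendsto (fun z : ℂ => ((F z : ℂ) : OnePoint ℂ)) (cocompact ℂ) (𝓝 ∞) := by
        have h5 : Tendsto F (cocompact ℂ) (cocompact ℂ) := by
          rw [← Metric.cobounded_eq_cocompact, ← tendsto_norm_atTop_iff_cobounded,
            Metric.cobounded_eq_cocompact]
          refine tendsto_atTop_mono' _ ?_ (tendsto_norm_cocompact_atTop (E := ℂ))
          filter_upwards [(tendsto_norm_cocompact_atTop (E := ℂ)).eventually_ge_atTop ρ] with z hz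
          have := (hF z hz).2
          linarith [norm_nonneg z]
        rw [coclosedCompact_eq_cocompact] at h1
        exact h1.comp h5
      refine h4.congr' ?_
      filter_upwards [(tendsto_norm_cocompact_atTop (E := ℂ)).eventually_ge_atTop ρ] with z hz
      exact (hF z hz).1.symm
    exact tendsto_nhds_unique h2 h3
  have hit : ∀ w : ℂ, ρ ≤ ‖w‖ → ∀ k : ℕ, ∃ y : ℂ, f^[k] (w : OnePoint ℂ) = (y : OnePoint ℂ) ∧
      2 ^ k * ‖w‖ ≤ ‖y‖ := by
    intro w hw k
    induction k with
    | zero => exact ⟨w, rfl, by simp⟩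
    | succ k ih =>
      obtain ⟨y, h1, h2⟩ := ih
      have h3 : ρ ≤ ‖y‖ := by
        have : (1 : ℝ) ≤ 2 ^ k := one_le_pow₀ (by norm_num)
        nlinarith [norm_nonneg w]
      refine ⟨F y, ?_, ?_⟩
      · rw [Function.iterate_succ_apply', h1, (hF y h3).1]
      · have := (hF y h3).2
        rw [pow_succ]
        nlinarith
  have hit' : ∀ w : ℂ, ρ ≤ ‖w‖ → Tendsto (fun k : ℕ => f^[1 * k] (w : OnePoint ℂ)) atTop (𝓝 ∞) := by
    intro w hw
    choose y hy1 hy2 using hit w hw
    have h1 := OnePoint.tendsto_coe_infty (X := ℂ)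
    rw [coclosedCompact_eq_cocompact] at h1
    have h2 : Tendsto y atTop (cocompact ℂ) := by
      rw [← Metric.cobounded_eq_cocompact, ← tendsto_norm_atTop_iff_cobounded]
      refine tendsto_atTop_mono hy2 ?_
      apply Tendsto.atTop_mul_const (by linarith)
      exact tendsto_pow_atTop_atTop_of_one_lt (by norm_num)
    refine (h1.comp h2).congr fun k => ?_
    rw [one_mul, hy1 k]
    rfl
  have hsinkinf : Tendsto (fun k : ℕ => f^[1 * k] (∞ : OnePoint ℂ)) atTop (𝓝 ∞) := by
    have : ∀ k : ℕ, f^[1 * k] (∞ : OnePoint ℂ) = ∞ := by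
      intro k; rw [one_mul]; exact Function.iterate_fixed hinf k
    simp only [this]
    exact tendsto_const_nhds
  have hU : ∃ U ∈ 𝓝 (∞ : OnePoint ℂ), ∀ w ∈ U, Tendsto (fun k : ℕ => f^[1 * k] w) atTop (𝓝 ∞) := by
    refine ⟨((fun x : ℂ => (x : OnePoint ℂ)) '' Metric.closedBall 0 ρ)ᶜ, ?_, ?_⟩
    · apply IsOpen.mem_nhds
      · exact ((isCompact_closedBall _ _).image OnePoint.continuous_coe).isClosed.isOpen_compl
      · rintro ⟨y, -, hy⟩
        exact OnePoint.coe_ne_infty y hy
    · intro w hw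
      induction w using OnePoint.rec with
      | infty => exact hsinkinf
      | coe z =>
        apply hit' z
        by_contra h
        rw [not_le] at h
        exact hw ⟨z, by simpa using h.le, rfl⟩
  refine ⟨fun w hw => ⟨∞, 1, one_pos, hinf, hU, hit' w hw⟩, ⟨∞, 1, one_pos, hinf, hU, hsinkinf⟩⟩

end Pool.Agent.Y296.CH
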