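import Mathlib
import Pool.Agent.Y296.CH.D

/-! Rational maps `R (T_n z) + t`: a criterion for hyperbolicity. -/

set_option autoImplicit false

open Filter Topology Polynomial
open scoped OnePoint

namespace Pool.Agent.Y296.CH

open Pool.Agent.H762R2.Rt Pool.Agent.H462R2.AP
open Pool.Agent.Helper114.Herman Pool.Agent.Helper114.Konig

/-- the marked values -/
def Marked (P Q : ℂ[X]) (v : ℂ) : Prop :=
  (∃ x : ℂ, Q.eval x ≠ 0 ∧ (x = 1 ∨ x = -1 ∨ (wro P Q).eval x = 0) ∧ v = P.eval x / Q.eval x) ∨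
    (Q.coeff (max P.natDegree Q.natDegree) ≠ 0 ∧
      v = P.coeff (max P.natDegree Q.natDegree) / Q.coeff (max P.natDegree Q.natDegree))

/-- a finite set which contains the marked values -/
noncomputable def mks (P Q : ℂ[X]) : Finset ℂ :=
  insert (P.coeff (max P.natDegree Q.natDegree) / Q.coeff (max P.natDegree Q.natDegree))
    ((insert 1 (insert (-1) (wro P Q).roots.toFinset)).image fun x => P.eval x / Q.eval x)

lemma marked_mem {P Q : ℂ[X]} (hc : IsCoprime P Q) (hD : 1 ≤ max P.natDegree Q.natDegree) {v : ℂ}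
    (hv : Marked P Q v) : v ∈ mks P Q := by
  unfold mks
  rcases hv with ⟨x, -, h1, h2⟩ | ⟨-, h⟩
  · apply Finset.mem_insert_of_mem
    rw [Finset.mem_image]
    refine ⟨x, ?_, h2.symm⟩
    simp only [Finset.mem_insert, Multiset.mem_toFinset, mem_roots (wro_ne_zero hc hD), IsRoot.def]
    exact h1
  · rw [h]; exact Finset.mem_insert_self _ _

lemma card_mks {P Q : ℂ[X]} (hc : IsCoprime P Q) (hD : 1 ≤ max P.natDegree Q.natDegree) :
    (mks P Q).card ≤ 4 * max P.natDegree Q.natDegree := by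
  have h1 := wro_natDegree hc hD
  have h2 : (wro P Q).roots.toFinset.card ≤ (wro P Q).natDegree :=
    (Multiset.toFinset_card_le _).trans (card_roots' _)
  unfold mks
  refine (Finset.card_insert_le _ _).trans ?_
  have h3 : ((insert (1 : ℂ) (insert (-1) (wro P Q).roots.toFinset)).image
      fun x => P.eval x / Q.eval x).card ≤ (wro P Q).roots.toFinset.card + 1 + 1 :=
    Finset.card_image_le.trans ((Finset.card_insert_le _ _).trans
      (Nat.add_le_add_right (Finset.card_insert_le _ _) 1))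
  omega

lemma Q_ne {P Q : ℂ[X]} (hc : IsCoprime P Q) (hD : 1 ≤ max P.natDegree Q.natDegree) : Q ≠ 0 := by
  rintro rfl
  rw [isCoprime_zero_right] at hc
  rw [natDegree_eq_zero_of_isUnit hc] at hD
  simp at hD

/-- The criterion. -/
theorem criterion {P Q : ℂ[X]} (hc : IsCoprime P Q) (hD : 1 ≤ max P.natDegree Q.natDegree) :
    ∃ K : ℝ, 1 ≤ K ∧ ∀ δ : ℝ, 0 < δ → δ ≤ 1 → ∀ n : ℕ, 3 ≤ n → K ≤ δ * ((1 + δ) ^ n - 1) →
      ∀ t : ℂ, (∀ v, Marked P Q v → Away (2 * δ) (v + t)) → Hyp (num P Q t n) (den Q n) := by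
  have hQ := Q_ne hc hD
  rcases Nat.lt_or_ge Q.natDegree P.natDegree with hlt | hle
  · -- infinity is fixed
    obtain ⟨a, ha, L, hL, hfar⟩ := far_inf hQ hlt
    obtain ⟨V, hV⟩ : ∃ V : ℝ, ∀ v ∈ mks P Q, ‖v‖ ≤ V := by
      obtain ⟨V, hV⟩ := (mks P Q).finite_toSet.isBounded.exists_norm_le
      exact ⟨V, fun v hv => hV v hv⟩
    have hV0 : 0 ≤ V := (norm_nonneg _).trans (hV _ (Finset.mem_insert_self _ _))
    set ρ₀ := max (2 * L + 2) (16 / a + 1) with hρ₀
    have hρL : 2 * L + 2 ≤ ρ₀ := le_max_left _ _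
    have hρa : 16 / a + 1 ≤ ρ₀ := le_max_right _ _
    have hρ1 : 1 ≤ ρ₀ := by linarith
    set T₀ := 2 * V + 2 * ρ₀ with hT₀
    have hT0 : 0 < T₀ := by rw [hT₀]; linarith
    refine ⟨max (2 * L) (4 * T₀ / a), le_trans (by linarith) (le_max_left _ _), ?_⟩
    intro δ hδ hδ1 n hn hK t hm
    have hn0 : 0 < n := by omega
    obtain ⟨f, hf, -⟩ := exists_isRat (coprime_fam hc t n) (den_ne hQ hn0)
    set F : ℂ → ℂ := fun w => P.eval (tch n w) / Q.eval (tch n w) + t with hF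
    set ρ := max ρ₀ (‖t‖ / 2) with hρ
    have hρρ : ρ₀ ≤ ρ := le_max_left _ _
    have hρt : ‖t‖ / 2 ≤ ρ := le_max_right _ _
    have hbig : ∀ w : ℂ, ρ ≤ ‖w‖ → f (w : OnePoint ℂ) = ((F w : ℂ) : OnePoint ℂ) ∧
        2 * ‖w‖ ≤ ‖F w‖ := by
      intro w hw
      set r := ‖w‖ with hr
      have hr1 : 2 * L + 2 ≤ r := hρL.trans (hρρ.trans hw)
      have hr2 : 16 / a + 1 ≤ r := hρa.trans (hρρ.trans hw)
      have hr3 : ‖t‖ ≤ 2 * r := by linarith
      have hr4 : 2 ≤ r := by linarith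
      have h1 := tch_low (δ := r - 1) (by linarith) (w := w) (away_of_norm (by linarith)) n
      rw [add_sub_cancel] at h1
      have h2 : r ^ 3 ≤ r ^ n := pow_le_pow_right₀ (by linarith) hn
      have h3 : r ^ 3 = r * r * r := by ring
      have h3' : 4 ≤ r * r := by nlinarith
      have h3'' : r * 4 ≤ r * r * r := by nlinarith
      have h4 : r * r * r / 4 ≤ ‖tch n w‖ := by linarith
      have h5 : L ≤ ‖tch n w‖ := by linarith
      obtain ⟨h6, h7⟩ := hfar _ h5
      refine ⟨map_fin hf h6, ?_⟩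
      have h8 : ‖P.eval (tch n w) / Q.eval (tch n w)‖ - ‖t‖ ≤ ‖F w‖ := by
        have := norm_sub_norm_le (P.eval (tch n w) / Q.eval (tch n w)) (-t)
        rwa [sub_neg_eq_add, norm_neg] at this
      have h9 : a * (r * r * r / 4) ≤ a * ‖tch n w‖ := mul_le_mul_of_nonneg_left h4 ha.le
      have h10 : 16 ≤ a * r := by
        have : 16 / a ≤ r := by linarith
        rw [div_le_iff₀ ha] at this
        linarith
      have h11 : 4 * r ≤ a * (r * r * r / 4) := by
        have h12 : a * (r * r * r / 4) = (a * r) * (r * r) / 4 := by ring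
        rw [h12]
        nlinarith
      linarith
    obtain ⟨hesc, hinf⟩ := sinks_esc hf.cont (hρ1.trans hρρ) hbig
    refine hyp_of_marks hc hD hn0 hf hinf fun x hx hx' => ?_
    have hmk : Marked P Q (P.eval x / Q.eval x) := Or.inl ⟨x, hx, hx', rfl⟩
    set v := P.eval x / Q.eval x with hv
    have hvV : ‖v‖ ≤ V := hV v (marked_mem hc hD hmk)
    rcases le_or_gt T₀ ‖t‖ with ht | ht
    · apply hesc
      have h1 := norm_sub_norm_le t (-v)
      rw [sub_neg_eq_add, norm_neg, add_comm t v] at h1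
      rw [hρ]
      apply max_le <;> linarith
    · apply sinks_of_image hf.cont
      have hw : Away δ (v + t) := (hm v hmk).mono (by linarith)
      have h1 := tch_low hδ.le hw n
      have hK1 : 2 * L ≤ δ * ((1 + δ) ^ n - 1) := (le_max_left _ _).trans hK
      have hK2 : 4 * T₀ / a ≤ δ * ((1 + δ) ^ n - 1) := (le_max_right _ _).trans hK
      have h2 : δ * ((1 + δ) ^ n - 1) ≤ (1 + δ) ^ n - 1 := by
        have : 1 ≤ (1 + δ) ^ n := one_le_pow₀ (by linarith)
        nlinarith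
      have h3 : L ≤ ‖tch n (v + t)‖ := by linarith
      have h4 : 2 * T₀ / a ≤ ‖tch n (v + t)‖ := by
        have : 2 * T₀ / a = (4 * T₀ / a) / 2 := by ring
        rw [this]; linarith
      obtain ⟨h5, h6⟩ := hfar _ h3
      rw [map_fin hf h5]
      apply hesc
      have h8 := norm_sub_norm_le (P.eval (tch n (v + t)) / Q.eval (tch n (v + t))) (-t)
      rw [sub_neg_eq_add, norm_neg] at h8
      rw [div_le_iff₀ ha] at h4
      have h9 : ρ ≤ T₀ := by
        rw [hρ]; apply max_le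
        · rw [hT₀]; linarith
        · linarith
      linarith
  · -- infinity has a finite value
    obtain ⟨A, hA, L, hL, hfar⟩ := far_fin hQ hle
    have hDQ : max P.natDegree Q.natDegree = Q.natDegree := max_eq_right hle
    refine ⟨max (2 * L) (8 * A), le_trans (by linarith) (le_max_left _ _), ?_⟩
    intro δ hδ hδ1 n hn hK t hm
    have hn0 : 0 < n := by omega
    obtain ⟨f, hf, -⟩ := exists_isRat (coprime_fam hc t n) (den_ne hQ hn0)
    have hK1 : 2 * L ≤ δ * ((1 + δ) ^ n - 1) := (le_max_left _ _).trans hK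
    have hK2 : 8 * A ≤ δ * ((1 + δ) ^ n - 1) := (le_max_right _ _).trans hK
    have h2 : δ * ((1 + δ) ^ n - 1) ≤ (1 + δ) ^ n - 1 := by
      have : 1 ≤ (1 + δ) ^ n := one_le_pow₀ (by linarith)
      nlinarith
    have hβ : Away (2 * δ) (P.coeff Q.natDegree / Q.coeff Q.natDegree + t) := by
      apply hm
      right
      rw [hDQ]
      exact ⟨leadingCoeff_ne_zero.2 hQ, rfl⟩
    obtain ⟨hs, hinf⟩ := sinks_fin (δ := δ) hf hfar hA hδ (by linarith) (by linarith) hβ
    refine hyp_of_marks hc hD hn0 hf hinf fun x hx hx' => ?_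
    exact hs _ ((hm _ (Or.inl ⟨x, hx, hx', rfl⟩)).mono (by linarith))

/-- Fixed distance. -/
theorem eventually_hyp {P Q : ℂ[X]} (hc : IsCoprime P Q) (hD : 1 ≤ max P.natDegree Q.natDegree)
    {t : ℂ} (ht : ∀ v, Marked P Q v → ¬ ∃ s : ℝ, |s| ≤ 1 ∧ v + t = s) :
    ∃ n₀ : ℕ, ∀ n : ℕ, n₀ ≤ n → Hyp (num P Q t n) (den Q n) := by
  obtain ⟨K, hK, hcrit⟩ := criterion hc hD
  -- a common distance
  have hcl : IsClosed {z : ℂ | ∃ s : ℝ, |s| ≤ 1 ∧ z = s} := by
    have h1 : {z : ℂ | ∃ s : ℝ, |s| ≤ 1 ∧ z = s} = (fun s : ℝ => (s : ℂ)) '' Set.Icc (-1) 1 := by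
      ext z
      constructor
      · rintro ⟨s, hs, rfl⟩
        exact ⟨s, abs_le.1 hs, rfl⟩
      · rintro ⟨s, hs, rfl⟩
        exact ⟨s, abs_le.2 hs, rfl⟩
    rw [h1]
    exact (isCompact_Icc.image Complex.continuous_ofReal).isClosed
  have hone : ∀ v : ℂ, (¬ ∃ s : ℝ, |s| ≤ 1 ∧ v = s) → ∃ δ : ℝ, 0 < δ ∧ Away δ v := by
    intro v hv
    obtain ⟨δ, hδ, hball⟩ := Metric.isOpen_iff.1 hcl.isOpen_compl v hv
    refine ⟨δ, hδ, fun s hs => ?_⟩
    by_contra h
    rw [not_le] at h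
    have : (s : ℂ) ∈ Metric.ball v δ := by
      rw [mem_ball_iff_norm, norm_sub_rev]; exact h
    exact hball this ⟨s, hs, rfl⟩
  have hall : ∀ S : Finset ℂ, (∀ v ∈ S, ¬ ∃ s : ℝ, |s| ≤ 1 ∧ v + t = s) →
      ∃ δ : ℝ, 0 < δ ∧ ∀ v ∈ S, Away δ (v + t) := by
    intro S
    induction S using Finset.induction_on with
    | empty => intro _; exact ⟨1, one_pos, by simp⟩
    | insert a S ha ih =>
      intro h
      obtain ⟨δ₁, h1, h1'⟩ := ih fun v hv => h v (Finset.mem_insert_of_mem hv)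
      obtain ⟨δ₂, h2, h2'⟩ := hone _ (h a (Finset.mem_insert_self _ _))
      refine ⟨min δ₁ δ₂, lt_min h1 h2, fun v hv => ?_⟩
      rcases Finset.mem_insert.1 hv with rfl | hv
      · exact h2'.mono (min_le_right _ _)
      · exact (h1' v hv).mono (min_le_left _ _)
  classical
  obtain ⟨δ₀, hδ₀, hδ₀'⟩ := hall ((mks P Q).filter fun v => Marked P Q v)
    (fun v hv => ht v (Finset.mem_filter.1 hv).2)
  set δ := min (δ₀ / 2) 1 with hδd
  have hδ : 0 < δ := lt_min (by linarith) one_pos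
  have hδ1 : δ ≤ 1 := min_le_right _ _
  have hlim : Tendsto (fun n : ℕ => δ * ((1 + δ) ^ n - 1)) atTop atTop := by
    apply Tendsto.const_mul_atTop hδ
    exact tendsto_atTop_add_const_right _ _ (tendsto_pow_atTop_atTop_of_one_lt (by linarith))
  obtain ⟨n₀, hn₀⟩ := eventually_atTop.1 (hlim.eventually_ge_atTop K)
  refine ⟨max n₀ 3, fun n hn => ?_⟩
  refine hcrit δ hδ hδ1 n ((le_max_right _ _).trans hn) (hn₀ n ((le_max_left _ _).trans hn)) t
    fun v hv => ?_
  refine (hδ₀' v (Finset.mem_filter.2 ⟨marked_mem hc hD hv, hv⟩)).mono ?_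
  have : δ ≤ δ₀ / 2 := min_le_left _ _
  linarith

end Pool.Agent.Y296.CH
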