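import Mathlib
import Pool.Agent.Y296.CH.E

/-! Rational maps `R (T_n z) + t`: area of the bad translates, small good translates. -/

set_option autoImplicit false

open Filter Topology Polynomial MeasureTheory
open scoped OnePoint

namespace Pool.Agent.Y296.CH

open Pool.Agent.H762R2.Rt

lemma vol_rect {a b : ℝ} (ha : 0 ≤ a) (_hb : 0 ≤ b) :
    volume {z : ℂ | |z.re| < a ∧ |z.im| < b} = ENNReal.ofReal (4 * (a * b)) := by
  have h1 : {z : ℂ | |z.re| < a ∧ |z.im| < b} =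
      Complex.measurableEquivRealProd ⁻¹' (Set.Ioo (-a) a ×ˢ Set.Ioo (-b) b) := by
    ext z
    simp [abs_lt]
  rw [h1, Complex.volume_preserving_equiv_real_prod.measure_preimage
    (measurableSet_Ioo.prod measurableSet_Ioo).nullMeasurableSet]
  rw [Measure.volume_eq_prod, Measure.prod_prod, Real.volume_Ioo, Real.volume_Ioo,
    ← ENNReal.ofReal_mul (by linarith)]
  congr 1
  ring

lemma not_away {η : ℝ} {z : ℂ} (h : ¬ Away η z) : |z.re| < 1 + η ∧ |z.im| < η := by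
  unfold Away at h
  push Not at h
  obtain ⟨s, hs, h⟩ := h
  have h1 := Complex.abs_re_le_norm (z - s)
  have h2 := Complex.abs_im_le_norm (z - s)
  rw [Complex.sub_re, Complex.ofReal_re] at h1
  rw [Complex.sub_im, Complex.ofReal_im, sub_zero] at h2
  have h3 := abs_sub_abs_le_abs_sub z.re s
  exact ⟨by linarith, by linarith⟩

lemma vol_not_away {η : ℝ} (hη : 0 ≤ η) (v : ℂ) :
    volume {t : ℂ | ¬ Away η (v + t)} ≤ ENNReal.ofReal (4 * ((1 + η) * η)) := by
  rw [← vol_rect (by linarith : 0 ≤ 1 + η) hη]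
  have h1 : {t : ℂ | ¬ Away η (v + t)} ⊆ (fun t => v + t) ⁻¹' {z : ℂ | |z.re| < 1 + η ∧ |z.im| < η} :=
    fun t ht => not_away ht
  refine (measure_mono h1).trans ?_
  rw [measure_preimage_add]

lemma vol_bad (S : Finset ℂ) {N : ℕ} (hS : S.card ≤ N) {η : ℝ} (hη : 0 ≤ η) :
    volume {t : ℂ | ∃ v ∈ S, ¬ Away η (v + t)} ≤ ENNReal.ofReal (N * (4 * ((1 + η) * η))) := by
  have hsub : {t : ℂ | ∃ v ∈ S, ¬ Away η (v + t)} ⊆ ⋃ v ∈ S, {t : ℂ | ¬ Away η (v + t)} := by
    rintro t ⟨v, hv, h⟩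
    simp only [Set.mem_iUnion]
    exact ⟨v, hv, h⟩
  refine (measure_mono hsub).trans ((measure_biUnion_finset_le _ _).trans ?_)
  refine (Finset.sum_le_card_nsmul _ _ _ fun v _ => vol_not_away hη v).trans ?_
  rw [nsmul_eq_mul, ENNReal.ofReal_mul (by positivity : (0 : ℝ) ≤ N), ENNReal.ofReal_natCast]
  gcongr

lemma exists_small (S : Finset ℂ) {N : ℕ} (hS : S.card ≤ N) {η : ℝ} (hη : 0 < η) :
    ∃ t : ℂ, ‖t‖ ≤ 3 * η * N ∧ ∀ v ∈ S, Away η (v + t) := by
  classical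
  set B : ℂ → Finset ℕ := fun v => (Finset.range (N + 1)).filter
    fun j => ¬ Away η (v + ((3 * η * j : ℝ) : ℂ) * Complex.I) with hB
  have h1 : ∀ v, (B v).card ≤ 1 := by
    intro v
    rw [Finset.card_le_one]
    intro i hi j hj
    rw [hB, Finset.mem_filter] at hi hj
    have hi' := (not_away hi.2).2
    have hj' := (not_away hj.2).2
    simp only [Complex.add_im, Complex.mul_im, Complex.ofReal_re, Complex.I_im, mul_one,
      Complex.ofReal_im, Complex.I_re, mul_zero, add_zero] at hi' hj'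
    by_contra hij
    have h2 : (1 : ℝ) ≤ |(i : ℝ) - j| := by
      have h3 : (1 : ℤ) ≤ |(i : ℤ) - j| := Int.one_le_abs (by
        intro h; exact hij (by exact_mod_cast sub_eq_zero.1 h))
      exact_mod_cast h3
    have h4 : |3 * η * i - 3 * η * j| < 2 * η := by
      have h5 : 3 * η * i - 3 * η * j = (v.im + 3 * η * i) - (v.im + 3 * η * j) := by ring
      rw [h5]
      refine (abs_sub _ _).trans_lt ?_
      linarith
    have h6 : 3 * η * i - 3 * η * j = 3 * η * ((i : ℝ) - j) := by ring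
    rw [h6, abs_mul, abs_of_pos (by linarith : (0 : ℝ) < 3 * η)] at h4
    nlinarith
  have h2 : (S.biUnion B).card < (Finset.range (N + 1)).card := by
    rw [Finset.card_range]
    refine lt_of_le_of_lt (Finset.card_biUnion_le_card_mul _ _ 1 fun v _ => h1 v) ?_
    omega
  obtain ⟨j, hj, hj'⟩ := Finset.exists_mem_notMem_of_card_lt_card h2
  refine ⟨((3 * η * j : ℝ) : ℂ) * Complex.I, ?_, ?_⟩
  · rw [norm_mul, Complex.norm_I, mul_one, Complex.norm_real, Real.norm_eq_abs,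
      abs_of_nonneg (by positivity)]
    have : (j : ℝ) ≤ N := by exact_mod_cast Nat.lt_succ_iff.1 (Finset.mem_range.1 hj)
    gcongr
  · intro v hv
    by_contra h
    exact hj' (Finset.mem_biUnion.2 ⟨v, hv, by rw [hB, Finset.mem_filter]; exact ⟨hj, h⟩⟩)

lemma growth {δ : ℝ} (hδ : 0 ≤ δ) (hδ1 : δ ≤ 1) (n : ℕ) :
    Real.exp (n * (δ / 2)) ≤ (1 + δ) ^ n := by
  rw [Real.exp_nat_mul]
  apply pow_le_pow_left₀ (Real.exp_pos _).le
  have h1 : 1 - δ / 2 ≤ Real.exp (-(δ / 2)) := Real.one_sub_le_exp_neg _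
  have h2 : 0 < 1 - δ / 2 := by linarith
  have h3 : Real.exp (δ / 2) * Real.exp (-(δ / 2)) = 1 := by
    rw [← Real.exp_add]; simp
  have h4 : 0 < Real.exp (δ / 2) := Real.exp_pos _
  have h5 : Real.exp (δ / 2) * (1 - δ / 2) ≤ 1 := by
    have := mul_le_mul_of_nonneg_left h1 h4.le
    linarith
  have h6 : 1 ≤ (1 + δ) * (1 - δ / 2) := by nlinarith
  nlinarith

/-- the distance used -/
noncomputable def dl (n : ℕ) : ℝ := 6 * (Real.log n / n)

lemma dl_tendsto : Tendsto dl atTop (𝓝 0) := by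
  have h1 : Tendsto (fun x : ℝ => Real.log x / x) atTop (𝓝 0) := by
    have := Real.tendsto_pow_log_div_mul_add_atTop 1 0 1 one_ne_zero
    simpa using this
  have h2 := (h1.comp tendsto_natCast_atTop_atTop).const_mul (6 : ℝ)
  rw [mul_zero] at h2
  exact h2

lemma ev_dl (K : ℝ) : ∃ n₀ : ℕ, ∀ n : ℕ, n₀ ≤ n → 3 ≤ n ∧ 0 < dl n ∧ dl n ≤ 1 / 4 ∧
    K ≤ dl n * ((1 + dl n) ^ n - 1) := by
  obtain ⟨n₁, hn₁⟩ := eventually_atTop.1 (dl_tendsto.eventually_le_const (by norm_num : (0 : ℝ) < 1 / 4))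
  obtain ⟨n₂, hn₂⟩ := exists_nat_ge K
  refine ⟨max (max n₁ n₂) 3, fun n hn => ?_⟩
  have h3 : 3 ≤ n := (le_max_right _ _).trans hn
  have h1 : n₁ ≤ n := ((le_max_left _ _).trans (le_max_left _ _)).trans hn
  have h2 : n₂ ≤ n := ((le_max_right _ _).trans (le_max_left _ _)).trans hn
  have h3' : (3 : ℝ) ≤ n := by exact_mod_cast h3
  have hn0 : (0 : ℝ) < n := by linarith
  have hlog : 1 ≤ Real.log n := by
    rw [Real.le_log_iff_exp_le hn0]
    exact Real.exp_one_lt_three.le.trans h3'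
  have hd0 : 0 < dl n := by unfold dl; positivity
  have hd1 := hn₁ n h1
  refine ⟨h3, hd0, hd1, ?_⟩
  have h4 := growth hd0.le (by linarith : dl n ≤ 1) n
  have h5 : (n : ℝ) * (dl n / 2) = 3 * Real.log n := by unfold dl; field_simp; norm_num
  have h6 : Real.exp (3 * Real.log n) = (n : ℝ) ^ 3 := by
    rw [show (3 : ℝ) * Real.log n = (3 : ℕ) * Real.log n by norm_num, Real.exp_nat_mul,
      Real.exp_log hn0]
  rw [h5, h6] at h4
  have h7 : 6 / (n : ℝ) ≤ dl n := by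
    unfold dl
    rw [← mul_div_assoc]
    apply div_le_div_of_nonneg_right _ hn0.le
    linarith
  have h8 : K ≤ n := hn₂.trans (by exact_mod_cast h2)
  have h9 : (n : ℝ) ^ 3 / 2 ≤ (1 + dl n) ^ n - 1 := by
    have : (2 : ℝ) ≤ n ^ 3 := by nlinarith [mul_pos hn0 hn0, mul_pos hn0 (mul_pos hn0 hn0)]
    linarith
  calc K ≤ n := h8
    _ ≤ 6 / n * (n ^ 3 / 2) := by
        have : 6 / (n : ℝ) * (n ^ 3 / 2) = 3 * n ^ 2 := by field_simp; norm_num
        rw [this]; nlinarith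
    _ ≤ dl n * ((1 + dl n) ^ n - 1) := by
        apply mul_le_mul h7 h9 (by positivity) hd0.le

/-- Area of the bad translates, and small good translates. -/
theorem main {P Q : ℂ[X]} (hc : IsCoprime P Q) (hD : 1 ≤ max P.natDegree Q.natDegree) :
    ∃ n₀ : ℕ, ∀ n : ℕ, n₀ ≤ n →
      volume {t : ℂ | ¬ Hyp (num P Q t n) (den Q n)} ≤
        ENNReal.ofReal (300 * (max P.natDegree Q.natDegree : ℕ) * (Real.log n / n)) ∧
      ∃ t : ℂ, ‖t‖ ≤ 150 * (max P.natDegree Q.natDegree : ℕ) * (Real.log n / n) ∧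
        Hyp (num P Q t n) (den Q n) := by
  obtain ⟨K, hK, hcrit⟩ := criterion hc hD
  obtain ⟨n₀, hn₀⟩ := ev_dl K
  set D := max P.natDegree Q.natDegree with hDD
  refine ⟨n₀, fun n hn => ?_⟩
  obtain ⟨h3, hd0, hd1, hKn⟩ := hn₀ n hn
  have hlog : 0 < Real.log n / n := by
    have := hd0
    unfold dl at this
    linarith
  have hcard : (mks P Q).card ≤ 4 * D := card_mks hc hD
  have key : ∀ t : ℂ, (∀ v ∈ mks P Q, Away (2 * dl n) (v + t)) → Hyp (num P Q t n) (den Q n) :=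
    fun t ht => hcrit (dl n) hd0 (by linarith) n h3 hKn t fun v hv => ht v (marked_mem hc hD hv)
  constructor
  · have hsub : {t : ℂ | ¬ Hyp (num P Q t n) (den Q n)} ⊆
        {t : ℂ | ∃ v ∈ mks P Q, ¬ Away (2 * dl n) (v + t)} := by
      intro t ht
      by_contra h
      simp only [Set.mem_ofPred_eq, not_exists, not_and, not_not] at h
      exact ht (key t h)
    refine (measure_mono hsub).trans ((vol_bad (mks P Q) hcard (by linarith)).trans ?_)
    apply ENNReal.ofReal_le_ofReal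
    have h1 : (1 + 2 * dl n) * (2 * dl n) ≤ 3 * dl n := by nlinarith
    have h2 : 3 * dl n = 18 * (Real.log n / n) := by unfold dl; ring
    have hD0 : (0 : ℝ) ≤ (D : ℕ) := Nat.cast_nonneg _
    rw [Nat.cast_mul, Nat.cast_ofNat]
    calc (4 * (D : ℝ)) * (4 * ((1 + 2 * dl n) * (2 * dl n))) ≤ 4 * D * (4 * (3 * dl n)) := by gcongr
      _ = 288 * D * (Real.log n / n) := by rw [h2]; ring
      _ ≤ 300 * D * (Real.log n / n) := by gcongr; norm_num
  · obtain ⟨t, ht, ht'⟩ := exists_small (mks P Q) hcard (η := 2 * dl n) (by linarith)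
    refine ⟨t, ht.trans ?_, key t ht'⟩
    have hD0 : (0 : ℝ) ≤ (D : ℕ) := Nat.cast_nonneg _
    unfold dl
    rw [Nat.cast_mul, Nat.cast_ofNat]
    nlinarith [mul_nonneg hD0 hlog.le]

end Pool.Agent.Y296.CH
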