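import Mathlib
import Pool.Agent.Y296.CH.F

/-! Polynomials `P (T_n z) + t`: escape. -/

set_option autoImplicit false

open Filter Topology Polynomial MeasureTheory

namespace Pool.Agent.Y296.CH

/-- the map `z ↦ P (T_n z) + t` -/
noncomputable def pm (P : ℂ[X]) (t : ℂ) (n : ℕ) (w : ℂ) : ℂ := P.eval (tch n w) + t

/-- the polynomial `P (T_n z) + t` -/
noncomputable def pp (P : ℂ[X]) (t : ℂ) (n : ℕ) : ℂ[X] := P.comp (Chebyshev.T ℂ (n : ℤ)) + C t

lemma pp_eval (P : ℂ[X]) (t : ℂ) (n : ℕ) (w : ℂ) : (pp P t n).eval w = pm P t n w := by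
  simp [pp, pm, tch, eval_comp]

lemma pp_natDegree (P : ℂ[X]) (t : ℂ) (n : ℕ) : (pp P t n).natDegree = P.natDegree * n := by
  rw [pp, natDegree_add_C, natDegree_comp, natDegree_T']

/-- The orbit escapes. -/
def Esc (F : ℂ → ℂ) (z : ℂ) : Prop := Tendsto (fun k : ℕ => ‖F^[k] z‖) atTop atTop

lemma Esc.of_map {F : ℂ → ℂ} {z : ℂ} (h : Esc F (F z)) : Esc F z := by
  unfold Esc at h ⊢
  rw [← tendsto_add_atTop_iff_nat 1]
  refine h.congr fun k => ?_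
  rw [Function.iterate_succ_apply]

lemma Esc.of_iter {F : ℂ → ℂ} {z : ℂ} (m : ℕ) (h : Esc F (F^[m] z)) : Esc F z := by
  induction m generalizing z with
  | zero => exact h
  | succ m ih =>
    rw [Function.iterate_succ_apply] at h
    exact (ih h).of_map

lemma esc_of_big {F : ℂ → ℂ} {ρ : ℝ} (hρ : 1 ≤ ρ) (hF : ∀ w, ρ ≤ ‖w‖ → 2 * ‖w‖ ≤ ‖F w‖) {w : ℂ}
    (hw : ρ ≤ ‖w‖) : Esc F w := by
  have h : ∀ k : ℕ, 2 ^ k * ‖w‖ ≤ ‖F^[k] w‖ := by
    intro k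
    induction k with
    | zero => simp
    | succ k ih =>
      rw [Function.iterate_succ_apply']
      have h1 : (1 : ℝ) ≤ 2 ^ k := one_le_pow₀ (by norm_num)
      have h2 : ρ ≤ ‖F^[k] w‖ := by nlinarith [norm_nonneg w]
      have h3 := hF _ h2
      rw [pow_succ]
      linarith
  refine tendsto_atTop_mono h ?_
  apply Tendsto.atTop_mul_const (by linarith)
  exact tendsto_pow_atTop_atTop_of_one_lt (by norm_num)

lemma poly_far {P : ℂ[X]} (hP : 1 ≤ P.natDegree) :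
    ∃ a : ℝ, 0 < a ∧ ∃ L : ℝ, 1 ≤ L ∧ ∀ u : ℂ, L ≤ ‖u‖ → a * ‖u‖ ≤ ‖P.eval u‖ := by
  obtain ⟨a, ha, L, hL, h⟩ := far_inf (P := P) (Q := 1) one_ne_zero (by rw [natDegree_one]; omega)
  refine ⟨a, ha, L, hL, fun u hu => ?_⟩
  have := (h u hu).2
  simpa using this

/-- far away everything escapes, uniformly in `n` -/
lemma esc_far {P : ℂ[X]} (hP : 1 ≤ P.natDegree) :
    ∃ ρ₀ : ℝ, 1 ≤ ρ₀ ∧ ∀ n : ℕ, 3 ≤ n → ∀ t w : ℂ, ρ₀ ≤ ‖w‖ → ‖t‖ / 2 ≤ ‖w‖ →
      2 * ‖w‖ ≤ ‖pm P t n w‖ := by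
  obtain ⟨a, ha, L, hL, hfar⟩ := poly_far hP
  set ρ₀ := max (2 * L + 2) (16 / a + 1) with hρ₀
  have hρL : 2 * L + 2 ≤ ρ₀ := le_max_left _ _
  have hρa : 16 / a + 1 ≤ ρ₀ := le_max_right _ _
  refine ⟨ρ₀, by linarith, fun n hn t w hw htw => ?_⟩
  set r := ‖w‖ with hr
  have hr1 : 2 * L + 2 ≤ r := hρL.trans hw
  have hr2 : 16 / a + 1 ≤ r := hρa.trans hw
  have hr3 : ‖t‖ ≤ 2 * r := by linarith
  have hr4 : 2 ≤ r := by linarith
  have h1 := tch_low (δ := r - 1) (by linarith) (w := w) (away_of_norm (by linarith)) n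
  rw [add_sub_cancel] at h1
  have h2 : r ^ 3 ≤ r ^ n := pow_le_pow_right₀ (by linarith) hn
  have h3 : r ^ 3 = r * r * r := by ring
  have h3' : 4 ≤ r * r := by nlinarith
  have h3'' : r * 4 ≤ r * r * r := by nlinarith
  have h4 : r * r * r / 4 ≤ ‖tch n w‖ := by linarith
  have h7 := hfar _ (show L ≤ ‖tch n w‖ by linarith)
  have h8 : ‖P.eval (tch n w)‖ - ‖t‖ ≤ ‖pm P t n w‖ := by
    have := norm_sub_norm_le (P.eval (tch n w)) (-t)
    rwa [sub_neg_eq_add, norm_neg] at this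
  have h9 : a * (r * r * r / 4) ≤ a * ‖tch n w‖ := mul_le_mul_of_nonneg_left h4 ha.le
  have h10 : 16 ≤ a * r := by
    have : 16 / a ≤ r := by linarith
    rw [div_le_iff₀ ha] at this
    linarith
  have h11 : 4 * r ≤ a * (r * r * r / 4) := by
    have h12 : a * (r * r * r / 4) = (a * r) * (r * r) / 4 := by ring
    rw [h12]
    nlinarith
  linarith

/-- Off the `δ`-neighbourhood of the segment everything escapes, for bounded `t`. -/
lemma esc_away {P : ℂ[X]} (hP : 1 ≤ P.natDegree) (T₀ : ℝ) :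
    ∃ K : ℝ, 1 ≤ K ∧ ∀ δ : ℝ, 0 < δ → ∀ n : ℕ, 3 ≤ n → K ≤ (1 + δ) ^ n - 1 →
      ∀ t : ℂ, ‖t‖ ≤ T₀ → ∀ w : ℂ, Away δ w → Esc (pm P t n) w := by
  obtain ⟨a, ha, L, hL, hfar⟩ := poly_far hP
  obtain ⟨ρ₀, hρ₀, hesc⟩ := esc_far hP
  set ρ := max ρ₀ T₀ with hρ
  have hρρ : ρ₀ ≤ ρ := le_max_left _ _
  have hρT : T₀ ≤ ρ := le_max_right _ _
  refine ⟨max (2 * L) (4 * ρ / a), le_trans (by linarith) (le_max_left _ _), ?_⟩
  intro δ hδ n hn hK t ht w hw
  have h1 := tch_low hδ.le hw n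
  have hK1 : 2 * L ≤ (1 + δ) ^ n - 1 := (le_max_left _ _).trans hK
  have hK2 : 4 * ρ / a ≤ (1 + δ) ^ n - 1 := (le_max_right _ _).trans hK
  have h6 := hfar _ (show L ≤ ‖tch n w‖ by linarith)
  have h4 : 2 * ρ / a ≤ ‖tch n w‖ := by
    have : 2 * ρ / a = (4 * ρ / a) / 2 := by ring
    rw [this]; linarith
  rw [div_le_iff₀ ha] at h4
  apply Esc.of_map
  refine esc_of_big (ρ := ρ) (hρ₀.trans hρρ) (fun z hz => ?_) ?_
  · refine hesc n hn t z (hρρ.trans hz) ?_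
    have h0 : 0 ≤ ‖t‖ := norm_nonneg t
    linarith
  · have h8 : ‖P.eval (tch n w)‖ - ‖t‖ ≤ ‖pm P t n w‖ := by
      have := norm_sub_norm_le (P.eval (tch n w)) (-t)
      rwa [sub_neg_eq_add, norm_neg] at this
    linarith

/-- the marked values -/
def PMark (P : ℂ[X]) (v : ℂ) : Prop :=
  ∃ x : ℂ, (x = 1 ∨ x = -1 ∨ (derivative P).eval x = 0) ∧ v = P.eval x

/-- the finite set of the marked values -/
noncomputable def pmks (P : ℂ[X]) : Finset ℂ :=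
  (insert 1 (insert (-1) (derivative P).roots.toFinset)).image fun x => P.eval x

lemma pmark_iff {P : ℂ[X]} (hP : 1 ≤ P.natDegree) {v : ℂ} : PMark P v ↔ v ∈ pmks P := by
  have h : derivative P ≠ 0 := by
    intro h
    have := derivative_eq_zero.1 h
    omega
  unfold pmks PMark
  rw [Finset.mem_image]
  simp only [Finset.mem_insert, Multiset.mem_toFinset, mem_roots h, IsRoot.def]
  constructor
  · rintro ⟨x, h1, h2⟩; exact ⟨x, h1, h2.symm⟩
  · rintro ⟨x, h1, h2⟩; exact ⟨x, h1, h2.symm⟩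

lemma card_pmks {P : ℂ[X]} : (pmks P).card ≤ P.natDegree + 1 + 1 := by
  have h2 : (derivative P).roots.toFinset.card ≤ P.natDegree :=
    (Multiset.toFinset_card_le _).trans ((card_roots' _).trans
      ((natDegree_derivative_le P).trans (Nat.sub_le _ _)))
  exact Finset.card_image_le.trans ((Finset.card_insert_le _ _).trans
    (Nat.add_le_add_right ((Finset.card_insert_le _ _).trans (Nat.add_le_add_right h2 1)) 1))

/-- critical values are marked -/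
lemma crit_marked {P : ℂ[X]} {t : ℂ} {n : ℕ} (hn : 0 < n) {c : ℂ}
    (hc : (derivative (pp P t n)).eval c = 0) :
    ∃ v, PMark P v ∧ pm P t n c = v + t := by
  have h1 : derivative (pp P t n) = derivative (Chebyshev.T ℂ (n : ℤ)) *
      (derivative P).comp (Chebyshev.T ℂ (n : ℤ)) := by
    rw [pp, derivative_add, derivative_C, add_zero, derivative_comp]
  rw [h1, eval_mul, eval_comp] at hc
  refine ⟨P.eval (tch n c), ⟨tch n c, ?_, rfl⟩, rfl⟩
  rcases mul_eq_zero.1 hc with h | h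
  · rcases tch_crit hn h with h | h
    · exact Or.inl h
    · exact Or.inr (Or.inl h)
  · exact Or.inr (Or.inr h)

/-- all critical points escape -/
def AllEsc (P : ℂ[X]) (t : ℂ) (n : ℕ) : Prop :=
  ∀ c : ℂ, (derivative (pp P t n)).eval c = 0 → Esc (pm P t n) c

theorem pcriterion {P : ℂ[X]} (hP : 1 ≤ P.natDegree) :
    ∃ K : ℝ, 1 ≤ K ∧ ∀ δ : ℝ, 0 < δ → ∀ n : ℕ, 3 ≤ n → K ≤ (1 + δ) ^ n - 1 →
      ∀ t : ℂ, (∀ v ∈ pmks P, Away δ (v + t)) → AllEsc P t n := by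
  obtain ⟨ρ₀, hρ₀, hesc⟩ := esc_far hP
  obtain ⟨V, hV⟩ : ∃ V : ℝ, ∀ v ∈ pmks P, ‖v‖ ≤ V := by
    obtain ⟨V, hV⟩ := (pmks P).finite_toSet.isBounded.exists_norm_le
    exact ⟨V, fun v hv => hV v hv⟩
  have hV0 : 0 ≤ V := by
    have h1 : P.eval 1 ∈ pmks P := (pmark_iff hP).1 ⟨1, Or.inl rfl, rfl⟩
    exact (norm_nonneg _).trans (hV _ h1)
  obtain ⟨K, hK, haway⟩ := esc_away hP (2 * V + 2 * ρ₀)
  refine ⟨K, hK, fun δ hδ n hn hKn t hm c hc => ?_⟩
  obtain ⟨v, hv, hvc⟩ := crit_marked (by omega) hc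
  have hv' := (pmark_iff hP).1 hv
  apply Esc.of_map
  rw [hvc]
  rcases le_or_gt ‖t‖ (2 * V + 2 * ρ₀) with ht | ht
  · exact haway δ hδ n hn hKn t ht _ (hm v hv')
  · have h1 := norm_sub_norm_le t (-v)
    rw [sub_neg_eq_add, norm_neg, add_comm t v] at h1
    have h2 := hV v hv'
    refine esc_of_big (ρ := max ρ₀ (‖t‖ / 2)) (hρ₀.trans (le_max_left _ _)) (fun z hz => ?_) ?_
    · exact hesc n hn t z ((le_max_left _ _).trans hz) ((le_max_right _ _).trans hz)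
    · apply max_le <;> linarith

/-- Area of the bad translates, and small good translates. -/
theorem pmain {P : ℂ[X]} (hP : 1 ≤ P.natDegree) :
    ∃ n₀ : ℕ, ∀ n : ℕ, n₀ ≤ n →
      volume {t : ℂ | ¬ AllEsc P t n} ≤
        ENNReal.ofReal (110 * P.natDegree * (Real.log n / n)) ∧
      ∃ t : ℂ, ‖t‖ ≤ 60 * P.natDegree * (Real.log n / n) ∧ AllEsc P t n := by
  obtain ⟨K, hK, hcrit⟩ := pcriterion hP
  obtain ⟨n₀, hn₀⟩ := ev_dl K
  refine ⟨n₀, fun n hn => ?_⟩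
  obtain ⟨h3, hd0, hd1, hKn⟩ := hn₀ n hn
  have hlog : 0 < Real.log n / n := by
    have := hd0
    unfold dl at this
    linarith
  have hpow : 1 ≤ (1 + dl n) ^ n := one_le_pow₀ (by linarith)
  have hKn' : K ≤ (1 + dl n) ^ n - 1 := hKn.trans (by nlinarith)
  have hcard : (pmks P).card ≤ 3 * P.natDegree := card_pmks.trans (by omega)
  have key : ∀ t : ℂ, (∀ v ∈ pmks P, Away (dl n) (v + t)) → AllEsc P t n :=
    hcrit (dl n) hd0 n h3 hKn'
  have hD0 : (0 : ℝ) ≤ (P.natDegree : ℕ) := Nat.cast_nonneg _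
  constructor
  · have hsub : {t : ℂ | ¬ AllEsc P t n} ⊆ {t : ℂ | ∃ v ∈ pmks P, ¬ Away (dl n) (v + t)} := by
      intro t ht
      by_contra h
      simp only [Set.mem_ofPred_eq, not_exists, not_and, not_not] at h
      exact ht (key t h)
    refine (measure_mono hsub).trans ((vol_bad (pmks P) hcard hd0.le).trans ?_)
    apply ENNReal.ofReal_le_ofReal
    have h1 : (1 + dl n) * (dl n) ≤ 5 / 4 * dl n := by nlinarith
    have h2 : 5 / 4 * dl n = 15 / 2 * (Real.log n / n) := by unfold dl; ring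
    rw [Nat.cast_mul, Nat.cast_ofNat]
    calc (3 * (P.natDegree : ℝ)) * (4 * ((1 + dl n) * (dl n))) ≤ 3 * P.natDegree * (4 * (5 / 4 * dl n)) := by gcongr
      _ = 90 * P.natDegree * (Real.log n / n) := by rw [h2]; ring
      _ ≤ 110 * P.natDegree * (Real.log n / n) := by gcongr; norm_num
  · obtain ⟨t, ht, ht'⟩ := exists_small (pmks P) hcard (η := dl n) hd0
    refine ⟨t, ht.trans ?_, key t ht'⟩
    unfold dl
    rw [Nat.cast_mul, Nat.cast_ofNat]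
    nlinarith [mul_nonneg hD0 hlog.le]

lemma closed_seg : IsClosed {z : ℂ | ∃ s : ℝ, |s| ≤ 1 ∧ z = s} := by
  have h1 : {z : ℂ | ∃ s : ℝ, |s| ≤ 1 ∧ z = s} = (fun s : ℝ => (s : ℂ)) '' Set.Icc (-1) 1 := by
    ext z
    constructor
    · rintro ⟨s, hs, rfl⟩
      exact ⟨s, abs_le.1 hs, rfl⟩
    · rintro ⟨s, hs, rfl⟩
      exact ⟨s, abs_le.2 hs, rfl⟩
  rw [h1]
  exact (isCompact_Icc.image Complex.continuous_ofReal).isClosed

/-- the segment -/
def Seg (z : ℂ) : Prop := ∃ s : ℝ, |s| ≤ 1 ∧ z = s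

lemma away_of_not_seg {v : ℂ} (hv : ¬ Seg v) : ∃ δ : ℝ, 0 < δ ∧ Away δ v := by
  obtain ⟨δ, hδ, hball⟩ := Metric.isOpen_iff.1 closed_seg.isOpen_compl v hv
  refine ⟨δ, hδ, fun s hs => ?_⟩
  by_contra h
  rw [not_le] at h
  have : (s : ℂ) ∈ Metric.ball v δ := by
    rw [mem_ball_iff_norm, norm_sub_rev]; exact h
  exact hball this ⟨s, hs, rfl⟩

lemma away_finset (S : Finset ℂ) (hS : ∀ v ∈ S, ¬ Seg v) :
    ∃ δ : ℝ, 0 < δ ∧ ∀ v ∈ S, Away δ v := by
  classical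
  induction S using Finset.induction_on with
  | empty => exact ⟨1, one_pos, by simp⟩
  | insert a S ha ih =>
    obtain ⟨δ₁, h1, h1'⟩ := ih fun v hv => hS v (Finset.mem_insert_of_mem hv)
    obtain ⟨δ₂, h2, h2'⟩ := away_of_not_seg (hS a (Finset.mem_insert_self _ _))
    refine ⟨min δ₁ δ₂, lt_min h1 h2, fun v hv => ?_⟩
    rcases Finset.mem_insert.1 hv with rfl | hv
    · exact h2'.mono (min_le_right _ _)
    · exact (h1' v hv).mono (min_le_left _ _)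

/-- Fixed translate off the segments. -/
theorem peventually {P : ℂ[X]} (hP : 1 ≤ P.natDegree) {t : ℂ}
    (ht : ∀ v, PMark P v → ¬ Seg (v + t)) : ∃ n₀ : ℕ, ∀ n : ℕ, n₀ ≤ n → AllEsc P t n := by
  classical
  obtain ⟨K, hK, hcrit⟩ := pcriterion hP
  obtain ⟨δ, hδ, hδ'⟩ := away_finset ((pmks P).image fun v => v + t) (by
    intro w hw
    obtain ⟨v, hv, rfl⟩ := Finset.mem_image.1 hw
    exact ht v ((pmark_iff hP).2 hv))
  have hlim : Tendsto (fun n : ℕ => (1 + δ) ^ n - 1) atTop atTop :=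
    tendsto_atTop_add_const_right _ _ (tendsto_pow_atTop_atTop_of_one_lt (by linarith))
  obtain ⟨n₀, hn₀⟩ := eventually_atTop.1 (hlim.eventually_ge_atTop K)
  refine ⟨max n₀ 3, fun n hn => ?_⟩
  exact hcrit δ hδ n ((le_max_right _ _).trans hn) (hn₀ n ((le_max_left _ _).trans hn)) t
    fun v hv => hδ' _ (Finset.mem_image.2 ⟨v, hv, rfl⟩)

end Pool.Agent.Y296.CH
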