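import Mathlib
import Pool.Agent.Y296.CH.G

/-! Chebyshev polynomials at `cos (π r)`, and windows. -/

set_option autoImplicit false

open Filter Topology Polynomial

namespace Pool.Agent.Y296.CH

/-- numbers `cos (π r)` with `r` rational -/
def Tor (x : ℂ) : Prop := ∃ r : ℚ, x = ((Real.cos (Real.pi * r) : ℝ) : ℂ)

lemma tch_real (n : ℕ) (θ : ℝ) :
    tch n ((Real.cos θ : ℝ) : ℂ) = ((Real.cos (n * θ) : ℝ) : ℂ) := by
  rw [Complex.ofReal_cos, tch_cos, Complex.ofReal_cos]
  push_cast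
  rfl

lemma Tor.seg {x : ℂ} (h : Tor x) : Seg x := by
  obtain ⟨r, rfl⟩ := h
  exact ⟨_, Real.abs_cos_le_one _, rfl⟩

lemma Tor.tch {x : ℂ} (h : Tor x) (n : ℕ) : Tor (tch n x) := by
  obtain ⟨r, rfl⟩ := h
  refine ⟨n * r, ?_⟩
  rw [tch_real]
  congr 2
  push_cast
  ring

lemma Seg.tch {x : ℂ} (h : Seg x) (n : ℕ) : Seg (tch n x) := by
  obtain ⟨s, hs, rfl⟩ := h
  rw [abs_le] at hs
  have h1 : s = Real.cos (Real.arccos s) := (Real.cos_arccos hs.1 hs.2).symm
  rw [h1, tch_real]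
  exact ⟨_, Real.abs_cos_le_one _, rfl⟩

/-- the identity between `T_n` and its derivative -/
lemma pell (n : ℕ) (x : ℂ) :
    (n : ℂ) ^ 2 * (1 - tch n x ^ 2) = (1 - x ^ 2) * (derivative (Chebyshev.T ℂ (n : ℤ))).eval x ^ 2 := by
  obtain ⟨θ, rfl⟩ := Complex.cos_surjective x
  rw [Chebyshev.T_derivative_eq_U, eval_mul]
  have h1 := Chebyshev.U_complex_cos θ ((n : ℤ) - 1)
  have h2 : (((n : ℤ) - 1 : ℤ) : ℂ) + 1 = n := by push_cast; ring
  rw [h2] at h1
  rw [tch_cos]
  have h3 := Complex.sin_sq_add_cos_sq (n * θ)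
  have h4 := Complex.sin_sq_add_cos_sq θ
  have h5 : ((n : ℤ) : ℂ[X]).eval (Complex.cos θ) = n := by simp
  rw [h5]
  have h6 : 1 - Complex.cos (n * θ) ^ 2 = Complex.sin (n * θ) ^ 2 := by linear_combination -h3
  have h7 : 1 - Complex.cos θ ^ 2 = Complex.sin θ ^ 2 := by linear_combination -h4
  rw [h6, h7, ← h1]
  ring

lemma deriv_T_one {n : ℕ} (hn : 0 < n) {x : ℂ} (hx : x = 1 ∨ x = -1) :
    ‖(derivative (Chebyshev.T ℂ (n : ℤ))).eval x‖ = (n : ℝ) ^ 2 := by
  rw [Chebyshev.T_derivative_eq_U, eval_mul]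
  have h5 : ((n : ℤ) : ℂ[X]).eval x = n := by simp
  rw [h5, norm_mul, Complex.norm_natCast]
  have h6 : ‖(Chebyshev.U ℂ ((n : ℤ) - 1)).eval x‖ = n := by
    rcases hx with rfl | rfl
    · rw [Chebyshev.U_eval_one]
      push_cast
      rw [sub_add_cancel, Complex.norm_natCast]
    · rw [Chebyshev.U_eval_neg_one]
      have h7 : ‖((((n : ℤ) - 1).negOnePow : ℤ) : ℂ)‖ = 1 := by
        rcases Int.even_or_odd ((n : ℤ) - 1) with h | h
        · rw [Int.negOnePow_even _ h]; simp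
        · rw [Int.negOnePow_odd _ h]; simp
      rw [norm_mul, h7]
      push_cast
      rw [sub_add_cancel, Complex.norm_natCast, one_mul]
  rw [h6]
  ring

lemma crit_iff {n : ℕ} (hn : 0 < n) (x : ℂ) :
    (derivative (Chebyshev.T ℂ (n : ℤ))).eval x = 0 ↔
      (x ≠ 1 ∧ x ≠ -1 ∧ (tch n x = 1 ∨ tch n x = -1)) := by
  have hn0 : (n : ℂ) ≠ 0 := by exact_mod_cast hn.ne'
  have hn1 : (0 : ℝ) < (n : ℝ) ^ 2 := by positivity
  constructor
  · intro h
    refine ⟨?_, ?_, tch_crit hn h⟩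
    · intro hx
      have := deriv_T_one hn (Or.inl hx)
      rw [h, norm_zero] at this
      linarith
    · intro hx
      have := deriv_T_one hn (Or.inr hx)
      rw [h, norm_zero] at this
      linarith
  · rintro ⟨h1, h2, h3⟩
    have h4 := pell n x
    have h5 : 1 - tch n x ^ 2 = 0 := by rcases h3 with h | h <;> rw [h] <;> ring
    rw [h5, mul_zero] at h4
    have h6 : 1 - x ^ 2 ≠ 0 := by
      intro h
      have : (1 - x) * (1 + x) = 0 := by linear_combination h
      rcases mul_eq_zero.1 this with h | h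
      · exact h1 (by linear_combination -h)
      · exact h2 (by linear_combination h)
    have h7 := (mul_eq_zero.1 h4.symm).resolve_left h6
    exact pow_eq_zero_iff (two_ne_zero) |>.1 h7

/-- periodicity -/
lemma exists_period (X : Finset ℂ) : ∃ M : ℕ, 0 < M ∧ ∀ x ∈ X, Tor x → ∀ n m : ℕ,
    n ≡ m [MOD M] → tch n x = tch m x := by
  classical
  induction X using Finset.induction_on with
  | empty => exact ⟨1, one_pos, by simp⟩
  | insert a X ha ih =>
    obtain ⟨M, hM, h⟩ := ih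
    by_cases hT : Tor a
    · obtain ⟨r, hr⟩ := hT
      refine ⟨M * (2 * r.den), by have := r.den_pos; positivity, ?_⟩
      intro x hx hxT n m hnm
      rcases Finset.mem_insert.1 hx with rfl | hx
      · rw [hr, tch_real, tch_real]
        congr 1
        have h1 : n ≡ m [MOD 2 * r.den] := hnm.of_mul_left M
        have h2 : ((n : ℤ)) ≡ m [ZMOD ((2 * r.den : ℕ) : ℤ)] := Int.natCast_modEq_iff.2 h1
        obtain ⟨k, hk⟩ := h2.dvd
        rw [Real.cos_eq_cos_iff]
        refine ⟨k * r.num, Or.inl ?_⟩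
        have hk' : (m : ℝ) - n = 2 * r.den * k := by exact_mod_cast hk
        have hr' : (r : ℝ) = r.num / r.den := Rat.cast_def r
        have hden : (r.den : ℝ) ≠ 0 := by exact_mod_cast r.den_nz
        rw [hr']
        push_cast
        have h3 : (m : ℝ) = n + 2 * r.den * k := by linarith
        rw [h3]
        field_simp
        ring
      · exact h x hx hxT n m (hnm.of_mul_right _)
    · refine ⟨M, hM, ?_⟩
      intro x hx hxT n m hnm
      rcases Finset.mem_insert.1 hx with rfl | hx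
      · exact absurd hxT hT
      · exact h x hx hxT n m hnm

/-- values at torsion points form a finite set -/
lemma values_finite (X : Finset ℂ) : {u : ℂ | ∃ x ∈ X, Tor x ∧ ∃ n : ℕ, u = tch n x}.Finite := by
  obtain ⟨M, hM, h⟩ := exists_period X
  refine ((X.product (Finset.range M)).image fun p => tch p.2 p.1).finite_toSet.subset ?_
  rintro u ⟨x, hx, hxT, n, rfl⟩
  rw [Finset.mem_coe, Finset.mem_image]
  refine ⟨(x, n % M), ?_, ?_⟩
  · exact Finset.mem_product.2 ⟨hx, Finset.mem_range.2 (Nat.mod_lt _ hM)⟩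
  · exact (h x hx hxT n (n % M) (Nat.mod_modEq n M).symm).symm

/-- lower bound for the derivative of `T_n` at torsion points -/
lemma deriv_low (X : Finset ℂ) : ∃ c : ℝ, 0 < c ∧ ∀ x ∈ X, Tor x → ∀ n : ℕ, 0 < n →
    (derivative (Chebyshev.T ℂ (n : ℤ))).eval x ≠ 0 →
      c * n ≤ ‖(derivative (Chebyshev.T ℂ (n : ℤ))).eval x‖ := by
  -- minimum of `|1 - u²|` over the values
  have hfin := values_finite X
  obtain ⟨c, hc, hcm⟩ : ∃ c : ℝ, 0 < c ∧ ∀ u ∈ {u : ℂ | ∃ x ∈ X, Tor x ∧ ∃ n : ℕ, u = tch n x},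
      1 - u ^ 2 ≠ 0 → c ≤ ‖1 - u ^ 2‖ := by
    have key : ∀ S : Finset ℂ, ∃ c : ℝ, 0 < c ∧ ∀ u ∈ S, 1 - u ^ 2 ≠ 0 → c ≤ ‖1 - u ^ 2‖ := by
      classical
      intro S
      induction S using Finset.induction_on with
      | empty => exact ⟨1, one_pos, by simp⟩
      | insert a S ha ih =>
        obtain ⟨c, hc, h⟩ := ih
        by_cases ha0 : 1 - a ^ 2 = 0
        · refine ⟨c, hc, fun u hu hu0 => ?_⟩
          rcases Finset.mem_insert.1 hu with rfl | hu
          · exact absurd ha0 hu0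
          · exact h u hu hu0
        · refine ⟨min c ‖1 - a ^ 2‖, lt_min hc (norm_pos_iff.2 ha0), fun u hu hu0 => ?_⟩
          rcases Finset.mem_insert.1 hu with rfl | hu
          · exact min_le_right _ _
          · exact (min_le_left _ _).trans (h u hu hu0)
    obtain ⟨c, hc, h⟩ := key hfin.toFinset
    exact ⟨c, hc, fun u hu => h u (hfin.mem_toFinset.2 hu)⟩
  refine ⟨min 1 (Real.sqrt c), lt_min one_pos (Real.sqrt_pos.2 hc), ?_⟩
  intro x hx hxT n hn hne
  have hn0 : (0 : ℝ) < n := by exact_mod_cast hn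
  have hn1 : (1 : ℝ) ≤ n := by exact_mod_cast hn
  by_cases hx1 : x = 1 ∨ x = -1
  · rw [deriv_T_one hn hx1]
    have : min 1 (Real.sqrt c) * n ≤ 1 * n := by gcongr; exact min_le_left _ _
    nlinarith
  · push Not at hx1
    have hv : ¬ (tch n x = 1 ∨ tch n x = -1) := fun h => hne ((crit_iff hn x).2 ⟨hx1.1, hx1.2, h⟩)
    have hu : 1 - tch n x ^ 2 ≠ 0 := by
      intro h
      have : (1 - tch n x) * (1 + tch n x) = 0 := by linear_combination h
      rcases mul_eq_zero.1 this with h | h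
      · exact hv (Or.inl (by linear_combination -h))
      · exact hv (Or.inr (by linear_combination h))
    have h1 := hcm (tch n x) ⟨x, hx, hxT, n, rfl⟩ hu
    have h2 := congrArg norm (pell n x)
    rw [norm_mul, norm_mul, norm_pow, norm_pow, Complex.norm_natCast] at h2
    have h3 : ‖1 - x ^ 2‖ ≤ 1 := by
      obtain ⟨s, hs, rfl⟩ := hxT.seg
      have h4 : (1 : ℂ) - (s : ℂ) ^ 2 = ((1 - s ^ 2 : ℝ) : ℂ) := by push_cast; ring
      rw [h4, Complex.norm_real, Real.norm_eq_abs]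
      have h5 : s ^ 2 ≤ 1 := by rw [← sq_abs]; exact pow_le_one₀ (abs_nonneg _) hs
      rw [abs_of_nonneg (by linarith)]
      nlinarith [sq_nonneg s]
    set D := ‖(derivative (Chebyshev.T ℂ (n : ℤ))).eval x‖ with hD
    have hD0 : 0 ≤ D := norm_nonneg _
    have h6 : (n : ℝ) ^ 2 * c ≤ D ^ 2 := by
      calc (n : ℝ) ^ 2 * c ≤ n ^ 2 * ‖1 - tch n x ^ 2‖ := by gcongr
        _ = ‖1 - x ^ 2‖ * D ^ 2 := h2
        _ ≤ 1 * D ^ 2 := by gcongr
        _ = D ^ 2 := one_mul _
    have h7 : (Real.sqrt c * n) ^ 2 ≤ D ^ 2 := by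
      rw [mul_pow, Real.sq_sqrt hc.le, mul_comm]; exact h6
    have h8 : Real.sqrt c * n ≤ D := abs_le_of_sq_le_sq h7 hD0 |>.trans' (le_abs_self _)
    refine le_trans ?_ h8
    gcongr
    exact min_le_right _ _

end Pool.Agent.Y296.CH
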