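import Mathlib
import Pool.Agent.Y296.CH.H

/-! The values `T_n y`, `y` not torsion, are rarely close to a finite set. -/

set_option autoImplicit false

open Filter Topology Polynomial

namespace Pool.Agent.Y296.CH

lemma exists_gap {θ : ℝ} (hθ : ¬ Tor ((Real.cos θ : ℝ) : ℂ)) (L : ℕ) :
    ∃ γ : ℝ, 0 < γ ∧ ∀ m : ℕ, 1 ≤ m → m < L → γ ≤ |Real.sin (m * θ / 2)| := by
  have hne : ∀ m : ℕ, 1 ≤ m → Real.sin (m * θ / 2) ≠ 0 := by
    intro m hm h
    rw [Real.sin_eq_zero_iff] at h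
    obtain ⟨k, hk⟩ := h
    apply hθ
    have hm0 : (m : ℝ) ≠ 0 := by
      have : (1 : ℝ) ≤ m := by exact_mod_cast hm
      positivity
    refine ⟨2 * k / m, ?_⟩
    have h1 : θ = Real.pi * (((2 * k / m : ℚ)) : ℝ) := by
      push_cast
      field_simp
      linarith
    rw [← h1]
  induction L with
  | zero => exact ⟨1, one_pos, by simp⟩
  | succ L ih =>
    obtain ⟨γ, hγ, h⟩ := ih
    rcases Nat.eq_zero_or_pos L with h0 | h0
    · refine ⟨1, one_pos, fun m h1 h2 => ?_⟩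
      omega
    · refine ⟨min γ |Real.sin (L * θ / 2)|, lt_min hγ (abs_pos.2 (hne L h0)), fun m h1 h2 => ?_⟩
      rcases Nat.lt_succ_iff_lt_or_eq.1 h2 with h3 | h3
      · exact (min_le_left _ _).trans (h m h1 h3)
      · rw [h3]; exact min_le_right _ _

lemma small_sin {a b κ : ℝ} (hκ : 0 < κ) (h : |Real.cos a - Real.cos b| < 2 * κ ^ 2) :
    |Real.sin ((a + b) / 2)| < κ ∨ |Real.sin ((a - b) / 2)| < κ := by
  rw [Real.cos_sub_cos] at h
  by_contra hcon
  push Not at hcon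
  rw [abs_mul, abs_mul, abs_neg, abs_two] at h
  have h1 := mul_le_mul hcon.1 hcon.2 hκ.le (abs_nonneg _)
  nlinarith

lemma sin_diff {α β κ : ℝ} (h1 : |Real.sin α| < κ) (h2 : |Real.sin β| < κ) :
    |Real.sin (α - β)| < 2 * κ := by
  rw [Real.sin_sub]
  have h3 := Real.abs_cos_le_one β
  have h4 := Real.abs_cos_le_one α
  have h5 := abs_sub (Real.sin α * Real.cos β) (Real.cos α * Real.sin β)
  rw [abs_mul, abs_mul] at h5
  have h6 : |Real.sin α| * |Real.cos β| ≤ |Real.sin α| * 1 :=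
    mul_le_mul_of_nonneg_left h3 (abs_nonneg _)
  have h7 : |Real.cos α| * |Real.sin β| ≤ 1 * |Real.sin β| :=
    mul_le_mul_of_nonneg_right h4 (abs_nonneg _)
  linarith

/-- Few `n` in a window with `T_n y` close to a finite set. -/
theorem window {y : ℂ} (hy : Seg y) (hyT : ¬ Tor y) (E : Finset ℂ) (hE : ∀ e ∈ E, Seg e) (L : ℕ) :
    ∃ η : ℝ, 0 < η ∧ ∀ N : ℕ,
      ({n : ℕ | ∃ e ∈ E, ‖tch n y - e‖ < η} ∩ Set.Ico N (N + L)).ncard ≤ 2 * E.card := by
  classical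
  obtain ⟨s, hs, rfl⟩ := hy
  rw [abs_le] at hs
  set θ := Real.arccos s with hθ
  have hcos : s = Real.cos θ := (Real.cos_arccos hs.1 hs.2).symm
  rw [hcos] at hyT ⊢
  obtain ⟨γ, hγ, hγ'⟩ := exists_gap hyT L
  refine ⟨2 * (γ / 2) ^ 2, by positivity, fun N => ?_⟩
  set κ := γ / 2 with hκ
  have hκ0 : 0 < κ := by rw [hκ]; linarith
  set φ : ℂ → ℝ := fun e => Real.arccos e.re with hφ
  have hφe : ∀ e ∈ E, e = ((Real.cos (φ e) : ℝ) : ℂ) := by
    intro e he
    obtain ⟨r, hr, hr'⟩ := hE e he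
    rw [abs_le] at hr
    simp only [hφ]
    rw [hr', Complex.ofReal_re, Real.cos_arccos hr.1 hr.2]
  have hkey : ∀ n : ℕ, (∃ e ∈ E, ‖tch n ((Real.cos θ : ℝ) : ℂ) - e‖ < 2 * κ ^ 2) →
      ∃ p ∈ E ×ˢ (Finset.univ : Finset Bool),
        |Real.sin ((n * θ + (if p.2 then φ p.1 else - φ p.1)) / 2)| < κ := by
    rintro n ⟨e, he, h⟩
    rw [hφe e he, tch_real, ← Complex.ofReal_sub, Complex.norm_real, Real.norm_eq_abs] at h
    rcases small_sin hκ0 h with h1 | h1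
    · exact ⟨(e, true), by simp [he], by simpa using h1⟩
    · exact ⟨(e, false), by simp [he], by simpa [sub_eq_add_neg] using h1⟩
  set W : Finset ℕ := (Finset.Ico N (N + L)).filter
    fun n => ∃ e ∈ E, ‖tch n ((Real.cos θ : ℝ) : ℂ) - e‖ < 2 * κ ^ 2 with hW
  have hWset : ({n : ℕ | ∃ e ∈ E, ‖tch n ((Real.cos θ : ℝ) : ℂ) - e‖ < 2 * κ ^ 2} ∩
      Set.Ico N (N + L)) = (W : Set ℕ) := by
    ext n
    simp only [hW, Finset.coe_filter, Finset.mem_Ico, Set.mem_inter_iff, Set.mem_ofPred_eq,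
      Set.mem_Ico]
    tauto
  rw [hWset, Set.ncard_coe_finset]
  choose! g hg1 hg2 using hkey
  have hcard : (E ×ˢ (Finset.univ : Finset Bool)).card = 2 * E.card := by
    rw [Finset.card_product, Finset.card_univ, Fintype.card_bool, mul_comm]
  rw [← hcard]
  refine Finset.card_le_card_of_injOn g (fun n hn => ?_) ?_
  · rw [Finset.mem_coe, hW, Finset.mem_filter] at hn
    exact hg1 n hn.2
  · intro n hn m hm hnm
    rw [Finset.mem_coe, hW, Finset.mem_filter, Finset.mem_Ico] at hn hm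
    by_contra hne
    have hn' := hg2 n hn.2
    have hm' := hg2 m hm.2
    rw [hnm] at hn'
    set ψ : ℝ := if (g m).2 then φ (g m).1 else - φ (g m).1 with hψ
    have aux : ∀ a b : ℕ, N ≤ b → a < N + L → b < a → |Real.sin ((a * θ + ψ) / 2)| < κ →
        |Real.sin ((b * θ + ψ) / 2)| < κ → False := by
      intro a b hb ha hab h1 h2
      have h3 := sin_diff h1 h2
      have h4 : (a * θ + ψ) / 2 - (b * θ + ψ) / 2 = ((a - b : ℕ) : ℝ) * θ / 2 := by
        rw [Nat.cast_sub hab.le]; ring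
      rw [h4] at h3
      have h5 := hγ' (a - b) (by omega) (by omega)
      rw [hκ] at h3
      linarith
    rcases Nat.lt_or_gt_of_ne hne with h | h
    · exact aux m n hn.1.1 hm.1.2 h hm' hn'
    · exact aux n m hm.1.1 hn.1.2 h hn' hm'

/-- The same for finitely many points. -/
theorem window_all (Y : Finset ℂ) (hY : ∀ y ∈ Y, Seg y ∧ ¬ Tor y) (E : Finset ℂ)
    (hE : ∀ e ∈ E, Seg e) (L : ℕ) :
    ∃ η : ℝ, 0 < η ∧ ∀ N : ℕ,
      ({n : ℕ | ∃ y ∈ Y, ∃ e ∈ E, ‖tch n y - e‖ < η} ∩ Set.Ico N (N + L)).ncard ≤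
        Y.card * (2 * E.card) := by
  classical
  induction Y using Finset.induction_on with
  | empty => exact ⟨1, one_pos, by simp⟩
  | insert a Y ha ih =>
    obtain ⟨η₁, h1, h1'⟩ := ih fun y hy => hY y (Finset.mem_insert_of_mem hy)
    have haY := hY a (Finset.mem_insert_self _ _)
    obtain ⟨η₂, h2, h2'⟩ := window haY.1 haY.2 E hE L
    refine ⟨min η₁ η₂, lt_min h1 h2, fun N => ?_⟩
    have hsub : ({n : ℕ | ∃ y ∈ insert a Y, ∃ e ∈ E, ‖tch n y - e‖ < min η₁ η₂} ∩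
        Set.Ico N (N + L)) ⊆
        ({n : ℕ | ∃ e ∈ E, ‖tch n a - e‖ < η₂} ∩ Set.Ico N (N + L)) ∪
          ({n : ℕ | ∃ y ∈ Y, ∃ e ∈ E, ‖tch n y - e‖ < η₁} ∩ Set.Ico N (N + L)) := by
      rintro n ⟨⟨y, hy, e, he, h⟩, hn⟩
      rcases Finset.mem_insert.1 hy with rfl | hy
      · exact Or.inl ⟨⟨e, he, h.trans_le (min_le_right _ _)⟩, hn⟩
      · exact Or.inr ⟨⟨y, hy, e, he, h.trans_le (min_le_left _ _)⟩, hn⟩
    refine (Set.ncard_le_ncard hsub ?_).trans ((Set.ncard_union_le _ _).trans ?_)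
    · exact ((Set.finite_Ico _ _).subset Set.inter_subset_right).union
        ((Set.finite_Ico _ _).subset Set.inter_subset_right)
    · rw [Finset.card_insert_of_notMem ha, add_mul, one_mul, add_comm]
      exact add_le_add (h1' N) (h2' N)

end Pool.Agent.Y296.CH
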