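import Mathlib
import Pool.Agent.Y296.CH.I

/-! Orbits of the polynomials `P (T_n z)`. -/

set_option autoImplicit false

open Filter Topology Polynomial

namespace Pool.Agent.Y296.CH

/-- the map `z ↦ P (T_n z)` -/
noncomputable def Fm (P : ℂ[X]) (n : ℕ) (w : ℂ) : ℂ := P.eval (tch n w)

lemma Fm_eq (P : ℂ[X]) (n : ℕ) : Fm P n = pm P 0 n := by
  funext w; simp [Fm, pm]

/-- the derivative of `P (T_n z)` -/
noncomputable def dF (P : ℂ[X]) (n : ℕ) (w : ℂ) : ℂ :=
  (derivative (P.comp (Chebyshev.T ℂ (n : ℤ)))).eval w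

lemma dF_eq (P : ℂ[X]) (n : ℕ) (w : ℂ) : dF P n w =
    (derivative (Chebyshev.T ℂ (n : ℤ))).eval w * (derivative P).eval (tch n w) := by
  rw [dF, derivative_comp, eval_mul, eval_comp]
  rfl

lemma Fm_eval (P : ℂ[X]) (n : ℕ) (w : ℂ) :
    Fm P n w = (P.comp (Chebyshev.T ℂ (n : ℤ))).eval w := by
  rw [eval_comp]; rfl

lemma Fm_hasDerivAt (P : ℂ[X]) (n : ℕ) (w : ℂ) : HasDerivAt (Fm P n) (dF P n w) w := by
  have h : Fm P n = fun w => (P.comp (Chebyshev.T ℂ (n : ℤ))).eval w := by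
    funext w; exact Fm_eval P n w
  rw [h]
  exact Polynomial.hasDerivAt _ w

lemma Fm_diff (P : ℂ[X]) (n : ℕ) : Differentiable ℂ (Fm P n) :=
  fun w => (Fm_hasDerivAt P n w).differentiableAt

/-- attracted by a sink -/
def Att (F : ℂ → ℂ) (z : ℂ) : Prop :=
  ∃ m : ℕ, 0 < m ∧ ∃ x : ℂ, F^[m] x = x ∧ ‖deriv F^[m] x‖ < 1 ∧
    Tendsto (fun k : ℕ => F^[m * k] z) atTop (𝓝 x)

lemma deriv_iter_zero {F : ℂ → ℂ} (hF : Differentiable ℂ F) {x : ℂ} {i p : ℕ} (hi : i < p)
    (h : deriv F (F^[i] x) = 0) : deriv F^[p] x = 0 := by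
  have h1 : F^[p] = F^[p - i - 1] ∘ (F ∘ F^[i]) := by
    rw [← Function.iterate_succ', ← Function.iterate_add]
    congr 1
    omega
  rw [h1]
  have h2 : HasDerivAt (F^[i]) (deriv F^[i] x) x := ((hF.iterate i) x).hasDerivAt
  have h3 : HasDerivAt F (deriv F (F^[i] x)) (F^[i] x) := (hF _).hasDerivAt
  have h4 := h3.comp x h2
  rw [h, zero_mul] at h4
  have h5 : HasDerivAt (F^[p - i - 1]) (deriv F^[p - i - 1] ((F ∘ F^[i]) x)) ((F ∘ F^[i]) x) :=
    ((hF.iterate _) _).hasDerivAt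
  have h6 := h5.comp x h4
  rw [mul_zero] at h6
  exact h6.deriv

lemma one_le_deriv_iter {F : ℂ → ℂ} (hF : Differentiable ℂ F) {x : ℂ} {m : ℕ}
    (h : ∀ i < m, 1 ≤ ‖deriv F (F^[i] x)‖) : 1 ≤ ‖deriv F^[m] x‖ := by
  induction m with
  | zero =>
    have : deriv (F^[0]) x = 1 := by
      have h1 : F^[0] = id := rfl
      rw [h1]; exact deriv_id x
    rw [this, norm_one]
  | succ m ih =>
    have h1 := ih fun i hi => h i (by omega)
    have h2 : F^[m + 1] = F ∘ F^[m] := Function.iterate_succ' F m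
    rw [h2, deriv_comp x (hF _) ((hF.iterate m) x), norm_mul]
    have h3 := h m (by omega)
    nlinarith

/-- an orbit in a finite set which meets critical points infinitely often is attracted -/
lemma att_of {F : ℂ → ℂ} (hF : Differentiable ℂ F) {S : Set ℂ} (hS : S.Finite) {c : ℂ}
    (hc : ∀ k, F^[k] c ∈ S) (hcrit : ∀ j, ∃ k, j ≤ k ∧ deriv F (F^[k] c) = 0) : Att F c := by
  obtain ⟨a, b, hab, heq⟩ : ∃ a b : ℕ, a < b ∧ F^[a] c = F^[b] c := by
    have h1 : ¬ Function.Injective (fun k : ℕ => (⟨F^[k] c, hc k⟩ : S)) := by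
      intro hinj
      have := hS.to_subtype
      exact not_injective_infinite_finite _ hinj
    rw [Function.Injective] at h1
    push Not at h1
    obtain ⟨a, b, h2, h3⟩ := h1
    have h2' : F^[a] c = F^[b] c := congrArg Subtype.val h2
    rcases Nat.lt_or_gt_of_ne h3 with h | h
    · exact ⟨a, b, h, h2'⟩
    · exact ⟨b, a, h, h2'.symm⟩
  set p := b - a with hp
  have hp0 : 0 < p := by omega
  have hper : ∀ k, a ≤ k → F^[k + p] c = F^[k] c := by
    intro k hk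
    have e1 : k + p = (k - a) + b := by omega
    have e2 : k = (k - a) + a := by omega
    rw [e1, Function.iterate_add_apply, ← heq, ← Function.iterate_add_apply, ← e2]
  have hper' : ∀ j k, a ≤ k → F^[k + p * j] c = F^[k] c := by
    intro j
    induction j with
    | zero => intro k _; simp
    | succ j ih =>
      intro k hk
      have e1 : k + p * (j + 1) = (k + p * j) + p := by ring
      rw [e1, hper _ (by omega), ih k hk]
  have hpa : a ≤ p * a := Nat.le_mul_of_pos_left a hp0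
  set x := F^[p * a] c with hx
  have hxr : ∀ r, F^[r] x = F^[r + p * a] c := fun r => by rw [hx, ← Function.iterate_add_apply]
  refine ⟨p, hp0, x, ?_, ?_, ?_⟩
  · rw [hxr, add_comm, hper _ hpa]
  · obtain ⟨k, hk, hk'⟩ := hcrit (p * a)
    have hmod : F^[(k - p * a) % p] x = F^[k] c := by
      rw [hxr]
      have e1 : k = ((k - p * a) % p + p * a) + p * ((k - p * a) / p) := by
        have := Nat.mod_add_div (k - p * a) p
        omega
      have e2 := hper' ((k - p * a) / p) ((k - p * a) % p + p * a) (hpa.trans (Nat.le_add_left _ _))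
      rw [← e1] at e2
      exact e2.symm
    have h1 : deriv F^[p] x = 0 :=
      deriv_iter_zero hF (i := (k - p * a) % p) (Nat.mod_lt _ hp0) (by rw [hmod]; exact hk')
    rw [h1, norm_zero]
    exact one_pos
  · have h1 : ∀ k, a ≤ k → F^[p * k] c = x := by
      intro k hk
      have e1 : p * k = p * a + p * (k - a) := by
        rw [← mul_add]; congr 1; omega
      rw [e1, hper' _ _ hpa]
    apply tendsto_const_nhds.congr'
    filter_upwards [eventually_ge_atTop a] with k hk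
    exact (h1 k hk).symm

/-- real points with real values -/
lemma finite_E {P : ℂ[X]} (hP : P.map (starRingEnd ℂ) ≠ P) :
    {u : ℂ | Seg u ∧ Seg (P.eval u)}.Finite := by
  set G := P.map (starRingEnd ℂ) - P with hG
  have hG0 : G ≠ 0 := sub_ne_zero.2 hP
  refine (G.roots.toFinset.finite_toSet).subset ?_
  rintro u ⟨⟨s, hs, rfl⟩, ⟨r, hr, h⟩⟩
  rw [Finset.mem_coe, Multiset.mem_toFinset, mem_roots hG0, IsRoot.def, hG, eval_sub, sub_eq_zero]
  have h1 : (P.map (starRingEnd ℂ)).eval ((starRingEnd ℂ) (s : ℂ)) = (starRingEnd ℂ) (P.eval (s : ℂ)) :=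
    eval_map_apply _ _
  rw [Complex.conj_ofReal, h, Complex.conj_ofReal] at h1
  rw [h1, h]

/-- distance to the segment on compact sets -/
lemma away_compact {P : ℂ[X]} (E : Finset ℂ) (hE : ∀ u : ℂ, Seg u → Seg (P.eval u) → u ∈ E)
    {η : ℝ} (hη : 0 < η) :
    ∃ δ : ℝ, 0 < δ ∧ ∀ u : ℂ, Seg u → (∀ e ∈ E, η ≤ ‖u - e‖) → Away δ (P.eval u) := by
  set SS : Set ℂ := {z : ℂ | ∃ s : ℝ, |s| ≤ 1 ∧ z = s} with hSS
  have hSne : SS.Nonempty := ⟨0, 0, by simp, by simp⟩
  set K : Set ℂ := {u : ℂ | Seg u ∧ ∀ e ∈ E, η ≤ ‖u - e‖} with hK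
  have hSc : IsCompact SS := by
    have h1 : SS = (fun s : ℝ => (s : ℂ)) '' Set.Icc (-1) 1 := by
      ext z
      constructor
      · rintro ⟨s, hs, rfl⟩
        exact ⟨s, abs_le.1 hs, rfl⟩
      · rintro ⟨s, hs, rfl⟩
        exact ⟨s, abs_le.2 hs, rfl⟩
    rw [h1]
    exact isCompact_Icc.image Complex.continuous_ofReal
  have hKc : IsCompact K := by
    have h1 : K = SS ∩ {u : ℂ | ∀ e ∈ E, η ≤ ‖u - e‖} := rfl
    rw [h1]
    apply hSc.inter_right
    have h2 : {u : ℂ | ∀ e ∈ E, η ≤ ‖u - e‖} = ⋂ e ∈ E, {u : ℂ | η ≤ ‖u - e‖} := by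
      ext u; simp
    rw [h2]
    exact isClosed_biInter fun e _ => isClosed_le continuous_const (by fun_prop)
  have haw : ∀ v : ℂ, Away (Metric.infDist v SS) v := by
    intro v s hs
    have h1 := Metric.infDist_le_dist_of_mem (x := v) (s := SS) (y := (s : ℂ)) ⟨s, hs, rfl⟩
    rwa [dist_eq_norm] at h1
  rcases K.eq_empty_or_nonempty with h0 | h0
  · refine ⟨1, one_pos, fun u hu hu' => ?_⟩
    exfalso
    have : u ∈ K := ⟨hu, hu'⟩
    rw [h0] at this
    exact this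
  · have hcont : ContinuousOn (fun u : ℂ => Metric.infDist (P.eval u) SS) K :=
      ((Metric.continuous_infDist_pt SS).comp P.continuous).continuousOn
    obtain ⟨u₀, hu₀, hmin⟩ := hKc.exists_isMinOn h0 hcont
    refine ⟨Metric.infDist (P.eval u₀) SS, ?_, fun u hu hu' => ?_⟩
    · have h1 : P.eval u₀ ∉ SS := by
        intro h
        have h2 := hE u₀ hu₀.1 h
        have h3 := hu₀.2 u₀ h2
        rw [sub_self, norm_zero] at h3
        linarith
      exact (closed_seg.notMem_iff_infDist_pos hSne).1 h1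
    · exact (haw _).mono (hmin ⟨hu, hu'⟩)

/-- The set of the positions. -/
structure Pos (P : ℂ[X]) (E Y : Finset ℂ) : Prop where
  hE : ∀ u : ℂ, Seg u → Seg (P.eval u) → u ∈ E
  seg : ∀ e ∈ E, Seg e
  mark : ∀ v, PMark P v → v ∈ Y
  img : ∀ e ∈ E, P.eval e ∈ Y

lemma exists_pos {P : ℂ[X]} (hd : 1 ≤ P.natDegree) (hP : P.map (starRingEnd ℂ) ≠ P) :
    ∃ E Y : Finset ℂ, Pos P E Y := by
  classical
  refine ⟨(finite_E hP).toFinset, pmks P ∪ (finite_E hP).toFinset.image fun u => P.eval u, ?_⟩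
  refine ⟨fun u hu hu' => ?_, fun e he => ?_, fun v hv => ?_, fun e he => ?_⟩
  · rw [Set.Finite.mem_toFinset]; exact ⟨hu, hu'⟩
  · rw [Set.Finite.mem_toFinset] at he; exact he.1
  · exact Finset.mem_union_left _ ((pmark_iff hd).1 hv)
  · exact Finset.mem_union_right _ (Finset.mem_image.2 ⟨e, he, rfl⟩)

variable {P : ℂ[X]} {E Y : Finset ℂ}

/-- the step at torsion points -/
lemma Pos.step_tor (h : Pos P E Y) : ∃ δ : ℝ, 0 < δ ∧ ∀ y ∈ Y, Tor y → ∀ n : ℕ,
    Fm P n y ∈ Y ∨ Away δ (Fm P n y) := by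
  classical
  set W : Finset ℂ := ((values_finite Y).toFinset.image fun u => P.eval u).filter fun v => ¬ Seg v
    with hW
  obtain ⟨δ, hδ, hδ'⟩ := away_finset W fun v hv => (Finset.mem_filter.1 hv).2
  refine ⟨δ, hδ, fun y hy hyT n => ?_⟩
  by_cases hs : Seg (Fm P n y)
  · left
    exact h.img _ (h.hE _ (hyT.seg.tch n) hs)
  · right
    apply hδ'
    rw [hW, Finset.mem_filter, Finset.mem_image]
    refine ⟨⟨tch n y, ?_, rfl⟩, hs⟩
    rw [Set.Finite.mem_toFinset]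
    exact ⟨y, hy, hyT, n, rfl⟩

lemma away_out (Y : Finset ℂ) : ∃ δ : ℝ, 0 < δ ∧ ∀ y ∈ Y, ¬ Seg y → Away δ y := by
  classical
  obtain ⟨δ, hδ, hδ'⟩ := away_finset (Y.filter fun v => ¬ Seg v) fun v hv => (Finset.mem_filter.1 hv).2
  exact ⟨δ, hδ, fun y hy hs => hδ' y (Finset.mem_filter.2 ⟨hy, hs⟩)⟩

/-- `n` is fine at scale `η` -/
def Fine (E Y : Finset ℂ) (η : ℝ) (n : ℕ) : Prop :=
  ∀ y ∈ Y, Seg y → ¬ Tor y → ∀ e ∈ E, η ≤ ‖tch n y - e‖

/-- the dichotomy -/
theorem Pos.dich (h : Pos P E Y) (hd : 1 ≤ P.natDegree) {η : ℝ} (hη : 0 < η) :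
    ∃ n₀ : ℕ, ∀ n : ℕ, n₀ ≤ n → Fine E Y η n →
      ∀ y ∈ Y, Esc (Fm P n) y ∨ (Tor y ∧ Fm P n y ∈ Y) := by
  obtain ⟨δ₁, h1, h1'⟩ := h.step_tor
  obtain ⟨δ₂, h2, h2'⟩ := away_out Y
  obtain ⟨δ₃, h3, h3'⟩ := away_compact (P := P) E h.hE hη
  obtain ⟨K, hK, hesc⟩ := esc_away hd 0
  set δ := min δ₁ (min δ₂ δ₃) with hδ
  have hδ0 : 0 < δ := lt_min h1 (lt_min h2 h3)
  have hδ1 : δ ≤ δ₁ := min_le_left _ _
  have hδ2 : δ ≤ δ₂ := (min_le_right _ _).trans (min_le_left _ _)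
  have hδ3 : δ ≤ δ₃ := (min_le_right _ _).trans (min_le_right _ _)
  have hlim : Tendsto (fun n : ℕ => (1 + δ) ^ n - 1) atTop atTop :=
    tendsto_atTop_add_const_right _ _ (tendsto_pow_atTop_atTop_of_one_lt (by linarith))
  obtain ⟨n₀, hn₀⟩ := eventually_atTop.1 (hlim.eventually_ge_atTop K)
  refine ⟨max n₀ 3, fun n hn hfine y hy => ?_⟩
  have hA : ∀ w, Away δ w → Esc (Fm P n) w := by
    intro w hw
    rw [Fm_eq]
    exact hesc δ hδ0 n ((le_max_right _ _).trans hn) (hn₀ n ((le_max_left _ _).trans hn)) 0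
      (by simp) w hw
  by_cases hs : Seg y
  · by_cases hT : Tor y
    · rcases h1' y hy hT n with h4 | h4
      · exact Or.inr ⟨hT, h4⟩
      · left
        apply Esc.of_map
        exact hA _ (h4.mono hδ1)
    · left
      apply Esc.of_map
      exact hA _ ((h3' _ (hs.tch n) fun e he => hfine y hy hs hT e he).mono hδ3)
  · left
    exact hA _ ((h2' y hy hs).mono hδ2)

lemma tor_orbit {n : ℕ} (hdich : ∀ y ∈ Y, Esc (Fm P n) y ∨ (Tor y ∧ Fm P n y ∈ Y)) {y : ℂ}
    (hy : y ∈ Y) (hesc : ¬ Esc (Fm P n) y) (k : ℕ) :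
    (Fm P n)^[k] y ∈ Y ∧ Tor ((Fm P n)^[k] y) ∧ ¬ Esc (Fm P n) ((Fm P n)^[k] y) := by
  have hne : ∀ k, ¬ Esc (Fm P n) ((Fm P n)^[k] y) := fun k h => hesc (h.of_iter k)
  have hmem : ∀ k, (Fm P n)^[k] y ∈ Y := by
    intro k
    induction k with
    | zero => exact hy
    | succ k ih =>
      rw [Function.iterate_succ_apply']
      exact ((hdich _ ih).resolve_left (hne k)).2
  exact ⟨hmem k, ((hdich _ (hmem k)).resolve_left (hne k)).1, hne k⟩

/-- resonance -/
def PRes (P : ℂ[X]) (n : ℕ) : Prop :=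
  ∃ v, PMark P v ∧ ∀ k : ℕ, Tor ((Fm P n)^[k] v) ∧ dF P n ((Fm P n)^[k] v) ≠ 0

/-- hyperbolicity -/
def PHyp (P : ℂ[X]) (n : ℕ) : Prop :=
  ∀ c : ℂ, dF P n c = 0 → Esc (Fm P n) c ∨ Att (Fm P n) c

lemma crit_mark {n : ℕ} (hn : 0 < n) {c : ℂ} (hc : dF P n c = 0) : PMark P (Fm P n c) := by
  rw [dF_eq] at hc
  refine ⟨tch n c, ?_, rfl⟩
  rcases mul_eq_zero.1 hc with h | h
  · rcases tch_crit hn h with h | h
    · exact Or.inl h
    · exact Or.inr (Or.inl h)
  · exact Or.inr (Or.inr h)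

/-- nonresonant and fine implies hyperbolic -/
theorem Pos.hyp (h : Pos P E Y) {n : ℕ} (hn : 0 < n)
    (hdich : ∀ y ∈ Y, Esc (Fm P n) y ∨ (Tor y ∧ Fm P n y ∈ Y)) (hres : ¬ PRes P n) :
    PHyp P n := by
  intro c hc
  set F := Fm P n with hF
  by_cases hesc : Esc F (F c)
  · exact Or.inl hesc.of_map
  right
  have hd : Differentiable ℂ F := Fm_diff P n
  have hderiv : ∀ z, deriv F z = dF P n z := fun z => (Fm_hasDerivAt P n z).deriv
  have hv := crit_mark hn hc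
  have hvY := h.mark _ hv
  have horb := tor_orbit hdich hvY hesc
  -- a marked point which does not escape meets a critical point
  have hmeet : ∀ w, PMark P w → ¬ Esc F w → ∃ k, dF P n (F^[k] w) = 0 := by
    intro w hw hwe
    by_contra hcon
    push Not at hcon
    exact hres ⟨w, hw, fun k => ⟨(tor_orbit hdich (h.mark w hw) hwe k).2.1, hcon k⟩⟩
  have hinf : ∀ j, ∃ k, j ≤ k ∧ dF P n (F^[k] (F c)) = 0 := by
    intro j
    induction j with
    | zero =>
      obtain ⟨k, hk⟩ := hmeet _ hv hesc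
      exact ⟨k, Nat.zero_le _, hk⟩
    | succ j ih =>
      obtain ⟨k, hk, hk'⟩ := ih
      have h1 : PMark P (F (F^[k] (F c))) := crit_mark hn hk'
      have h2 : ¬ Esc F (F (F^[k] (F c))) := by
        rw [← Function.iterate_succ_apply' F k]
        exact (horb (k + 1)).2.2
      obtain ⟨k', hk2⟩ := hmeet _ h1 h2
      refine ⟨k' + (k + 1), by omega, ?_⟩
      rw [Function.iterate_add_apply, Function.iterate_succ_apply']
      exact hk2
  refine att_of hd (S := insert c (Y : Set ℂ)) (Y.finite_toSet.insert c) (fun k => ?_) (fun j => ?_)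
  · cases k with
    | zero => exact Or.inl rfl
    | succ k =>
      rw [Function.iterate_succ_apply]
      exact Or.inr (horb k).1
  · obtain ⟨k, hk, hk'⟩ := hinf j
    refine ⟨k + 1, by omega, ?_⟩
    rw [Function.iterate_succ_apply, hderiv]
    exact hk'

end Pool.Agent.Y296.CH
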