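import Mathlib
import Pool.Agent.Y296.CH.J
import Pool.Agent.TH864.ZO.ZK

/-! The law for the exponents `n` for which `P (T_n z)` is hyperbolic. -/

set_option autoImplicit false

open Filter Topology Polynomial

namespace Pool.Agent.Y296.CH

variable {P : ℂ[X]} {E Y : Finset ℂ}

lemma crit_exists {n : ℕ} (hn : 3 ≤ n) {v : ℂ} (hv : PMark P v) :
    ∃ c : ℂ, dF P n c = 0 ∧ Fm P n c = v := by
  obtain ⟨x, hx, rfl⟩ := hv
  have hn3 : (3 : ℝ) ≤ n := by exact_mod_cast hn
  have hn0 : (0 : ℝ) < n := by linarith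
  have hpi := Real.pi_pos
  have hreal : ∀ θ : ℝ, 0 < θ → θ < Real.pi →
      ((Real.cos θ : ℝ) : ℂ) ≠ 1 ∧ ((Real.cos θ : ℝ) : ℂ) ≠ -1 := by
    intro θ h0 h1
    have h2 : 0 < Real.sin θ := Real.sin_pos_of_pos_of_lt_pi h0 h1
    have h3 := Real.sin_sq_add_cos_sq θ
    constructor
    · intro h
      have h4 : Real.cos θ = 1 := by exact_mod_cast h
      rw [h4] at h3
      nlinarith
    · intro h
      have h4 : Real.cos θ = -1 := by exact_mod_cast h
      rw [h4] at h3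
      nlinarith
  rcases hx with rfl | rfl | hx
  · have h1 := hreal (2 * Real.pi / n) (by positivity) (by
      rw [div_lt_iff₀ hn0]; nlinarith)
    have h2 : tch n ((Real.cos (2 * Real.pi / n) : ℝ) : ℂ) = 1 := by
      rw [tch_real]
      have : (n : ℝ) * (2 * Real.pi / n) = 2 * Real.pi := by field_simp
      rw [this, Real.cos_two_pi]
      simp
    refine ⟨((Real.cos (2 * Real.pi / n) : ℝ) : ℂ), ?_, ?_⟩
    · rw [dF_eq, (crit_iff (by omega) _).2 ⟨h1.1, h1.2, Or.inl h2⟩, zero_mul]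
    · rw [Fm, h2]
  · have h1 := hreal (Real.pi / n) (by positivity) (by
      rw [div_lt_iff₀ hn0]; nlinarith)
    have h2 : tch n ((Real.cos (Real.pi / n) : ℝ) : ℂ) = -1 := by
      rw [tch_real]
      have : (n : ℝ) * (Real.pi / n) = Real.pi := by field_simp
      rw [this, Real.cos_pi]
      simp
    refine ⟨((Real.cos (Real.pi / n) : ℝ) : ℂ), ?_, ?_⟩
    · rw [dF_eq, (crit_iff (by omega) _).2 ⟨h1.1, h1.2, Or.inr h2⟩, zero_mul]
    · rw [Fm, h2]
  · obtain ⟨φ, hφ⟩ := Complex.cos_surjective x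
    have h2 : tch n (Complex.cos (φ / n)) = x := by
      rw [tch_cos, ← hφ]
      congr 1
      have : (n : ℂ) ≠ 0 := by exact_mod_cast hn0.ne'
      field_simp
    refine ⟨Complex.cos (φ / n), ?_, ?_⟩
    · rw [dF_eq, h2, hx, mul_zero]
    · rw [Fm, h2]

/-- expansion at the torsion points which are not critical -/
lemma expand_low (P : ℂ[X]) (Y : Finset ℂ) : ∃ n₀ : ℕ, ∀ n : ℕ, n₀ ≤ n → ∀ y ∈ Y, Tor y →
    dF P n y ≠ 0 → 1 ≤ ‖dF P n y‖ := by
  classical
  obtain ⟨c₁, hc₁, h1⟩ := deriv_low Y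
  obtain ⟨c₂, hc₂, h2⟩ : ∃ c : ℝ, 0 < c ∧ ∀ u ∈ (values_finite Y).toFinset,
      (derivative P).eval u ≠ 0 → c ≤ ‖(derivative P).eval u‖ := by
    generalize (values_finite Y).toFinset = S
    induction S using Finset.induction_on with
    | empty => exact ⟨1, one_pos, by simp⟩
    | insert a S ha ih =>
      obtain ⟨c, hc, h⟩ := ih
      by_cases ha0 : (derivative P).eval a = 0
      · refine ⟨c, hc, fun u hu hu0 => ?_⟩
        rcases Finset.mem_insert.1 hu with rfl | hu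
        · exact absurd ha0 hu0
        · exact h u hu hu0
      · refine ⟨min c ‖(derivative P).eval a‖, lt_min hc (norm_pos_iff.2 ha0), fun u hu hu0 => ?_⟩
        rcases Finset.mem_insert.1 hu with rfl | hu
        · exact min_le_right _ _
        · exact (min_le_left _ _).trans (h u hu hu0)
  obtain ⟨n₀, hn₀⟩ := exists_nat_gt (1 / (c₁ * c₂))
  refine ⟨max n₀ 1, fun n hn y hy hyT hne => ?_⟩
  have hn1 : n₀ ≤ n := (le_max_left _ _).trans hn
  have hnp : 0 < n := (le_max_right _ _).trans hn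
  rw [dF_eq] at hne ⊢
  have h3 := h1 y hy hyT n hnp (left_ne_zero_of_mul hne)
  have h4 := h2 (tch n y) ((values_finite Y).mem_toFinset.2 ⟨y, hy, hyT, n, rfl⟩)
    (right_ne_zero_of_mul hne)
  rw [norm_mul]
  have h5 : (n₀ : ℝ) ≤ n := by exact_mod_cast hn1
  have h6 : 1 / (c₁ * c₂) ≤ n := hn₀.le.trans h5
  rw [div_le_iff₀ (by positivity)] at h6
  calc (1 : ℝ) ≤ n * (c₁ * c₂) := h6
    _ = (c₁ * n) * c₂ := by ring
    _ ≤ _ := mul_le_mul h3 h4 hc₂.le (norm_nonneg _)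

/-- resonant orbits stay in `Y` -/
lemma Pos.res_mem (h : Pos P E Y) {n : ℕ} {v : ℂ} (hv : PMark P v)
    (hT : ∀ k, Tor ((Fm P n)^[k] v)) (k : ℕ) : (Fm P n)^[k] v ∈ Y := by
  cases k with
  | zero => exact h.mark _ hv
  | succ k =>
    rw [Function.iterate_succ_apply']
    have h1 := (hT (k + 1)).seg
    rw [Function.iterate_succ_apply'] at h1
    exact h.img _ (h.hE _ ((hT k).seg.tch n) h1)

/-- resonant and large implies not hyperbolic -/
theorem Pos.not_hyp (h : Pos P E Y) : ∃ n₀ : ℕ, ∀ n : ℕ, n₀ ≤ n → PRes P n → ¬ PHyp P n := by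
  obtain ⟨n₀, hn₀⟩ := expand_low P Y
  refine ⟨max n₀ 3, fun n hn hres hhyp => ?_⟩
  obtain ⟨v, hv, hk⟩ := hres
  have hn3 : 3 ≤ n := (le_max_right _ _).trans hn
  obtain ⟨c, hc, hcv⟩ := crit_exists hn3 hv
  set F := Fm P n with hF
  have hd : Differentiable ℂ F := Fm_diff P n
  have hderiv : ∀ z, deriv F z = dF P n z := fun z => (Fm_hasDerivAt P n z).deriv
  have hY : ∀ k, F^[k] v ∈ Y := h.res_mem hv fun k => (hk k).1
  have hh : Esc F c ∨ Att F c := hhyp c hc
  rcases hh with h1 | h1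
  · -- the orbit is bounded
    unfold Esc at h1
    rw [← tendsto_add_atTop_iff_nat 1] at h1
    obtain ⟨k, hk2⟩ := (h1.eventually_gt_atTop 1).exists
    rw [Function.iterate_succ_apply, hcv] at hk2
    obtain ⟨s, hs, hs'⟩ := (hk k).1.seg
    rw [hs', Complex.norm_real, Real.norm_eq_abs] at hk2
    linarith
  · obtain ⟨m, hm, x, hx, hx1, hx2⟩ := h1
    have hcl : IsClosed {z : ℂ | ∃ j, F^[j] v = z} := by
      apply Set.Finite.isClosed
      refine Y.finite_toSet.subset ?_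
      rintro z ⟨j, rfl⟩
      exact hY j
    have hxm : x ∈ {z : ℂ | ∃ j, F^[j] v = z} := by
      apply hcl.mem_of_tendsto hx2
      filter_upwards [eventually_ge_atTop 1] with k hk1
      refine ⟨m * k - 1, ?_⟩
      have : m * k = (m * k - 1) + 1 := by
        have := Nat.mul_pos hm hk1
        omega
      conv_rhs => rw [this]
      rw [Function.iterate_succ_apply, hcv]
    obtain ⟨j, hj⟩ := hxm
    have h2 : 1 ≤ ‖deriv F^[m] x‖ := by
      refine one_le_deriv_iter hd fun i _ => ?_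
      rw [← hj, ← Function.iterate_add_apply, hderiv]
      exact hn₀ n ((le_max_left _ _).trans hn) _ (hY _) (hk _).1 (hk _).2
    linarith

/-- resonance is periodic in `n` -/
theorem Pos.res_periodic (h : Pos P E Y) : ∃ M : ℕ, 0 < M ∧ ∀ n m : ℕ, 1 ≤ n → 1 ≤ m →
    n ≡ m [MOD M] → (PRes P n ↔ PRes P m) := by
  obtain ⟨M, hM, hper⟩ := exists_period Y
  refine ⟨M, hM, ?_⟩
  have key : ∀ n m : ℕ, 1 ≤ n → 1 ≤ m → n ≡ m [MOD M] → PRes P n → PRes P m := by
    rintro n m hn hm hnm ⟨v, hv, hk⟩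
    have hY : ∀ k, (Fm P n)^[k] v ∈ Y := h.res_mem hv fun k => (hk k).1
    have heq : ∀ k, (Fm P m)^[k] v = (Fm P n)^[k] v := by
      intro k
      induction k with
      | zero => rfl
      | succ k ih =>
        rw [Function.iterate_succ_apply', Function.iterate_succ_apply', ih]
        have ht := hper _ (hY k) (hk k).1 n m hnm
        show P.eval (tch m ((Fm P n)^[k] v)) = P.eval (tch n ((Fm P n)^[k] v))
        rw [ht]
    refine ⟨v, hv, fun k => ?_⟩
    rw [heq k]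
    refine ⟨(hk k).1, ?_⟩
    have h1 := (hk k).2
    have ht := hper _ (hY k) (hk k).1 n m hnm
    rw [dF_eq] at h1 ⊢
    rw [← ht]
    refine mul_ne_zero ?_ (right_ne_zero_of_mul h1)
    have h2 := left_ne_zero_of_mul h1
    intro h3
    apply h2
    rw [crit_iff (by omega)] at h3 ⊢
    rw [ht]
    exact h3
  exact fun n m hn hm hnm => ⟨key n m hn hm hnm, key m n hm hn hnm.symm⟩

/-- the law -/
theorem zero_one (hd : 1 ≤ P.natDegree) (hP : P.map (starRingEnd ℂ) ≠ P) :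
    ∃ M K n₀ : ℕ, 0 < M ∧
      (∀ n m : ℕ, 1 ≤ n → 1 ≤ m → n ≡ m [MOD M] → (PRes P n ↔ PRes P m)) ∧
      (∀ n : ℕ, n₀ ≤ n → PRes P n → ¬ PHyp P n) ∧
      (∀ L : ℕ, ∃ N₀ : ℕ, ∀ N : ℕ, N₀ ≤ N →
        ({n : ℕ | ¬ (PHyp P n ↔ ¬ PRes P n)} ∩ Set.Ico N (N + L)).ncard ≤ K) ∧
      Tendsto (fun N : ℕ => (({n : ℕ | PHyp P n} ∩ Set.Iio N).ncard : ℝ) / N) atTop
        (𝓝 (({a : ℕ | 1 ≤ a ∧ a ≤ M ∧ ¬ PRes P a}.ncard : ℝ) / M)) := by
  classical
  obtain ⟨E, Y, h⟩ := exists_pos hd hP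
  obtain ⟨M, hM, hper⟩ := h.res_periodic
  obtain ⟨n₀, hn₀⟩ := h.not_hyp
  set Y' := Y.filter fun y => Seg y ∧ ¬ Tor y with hY'
  have hwin : ∀ L : ℕ, ∃ N₀ : ℕ, ∀ N : ℕ, N₀ ≤ N →
      ({n : ℕ | ¬ (PHyp P n ↔ ¬ PRes P n)} ∩ Set.Ico N (N + L)).ncard ≤
        Y'.card * (2 * E.card) := by
    intro L
    obtain ⟨η, hη, hw⟩ := window_all Y' (fun y hy => (Finset.mem_filter.1 hy).2) E h.seg L
    obtain ⟨n₁, hn₁⟩ := h.dich hd hη
    refine ⟨max (max n₀ n₁) 1, fun N hN => ?_⟩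
    refine (Set.ncard_le_ncard ?_ ((Set.finite_Ico _ _).subset Set.inter_subset_right)).trans (hw N)
    rintro n ⟨hn1, hn2⟩
    refine ⟨?_, hn2⟩
    by_contra hcon
    apply hn1
    have hNn : max (max n₀ n₁) 1 ≤ n := hN.trans hn2.1
    have hfine : Fine E Y η n := by
      intro y hy hs hT e he
      by_contra hlt
      rw [not_le] at hlt
      exact hcon ⟨y, Finset.mem_filter.2 ⟨hy, hs, hT⟩, e, he, hlt⟩
    constructor
    · intro h1 h2
      exact hn₀ n (((le_max_left _ _).trans (le_max_left _ _)).trans hNn) h2 h1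
    · intro h1
      exact h.hyp ((le_max_right _ _).trans hNn)
        (hn₁ n (((le_max_right _ _).trans (le_max_left _ _)).trans hNn) hfine) h1
  refine ⟨M, Y'.card * (2 * E.card), n₀, hM, hper, hn₀, hwin, ?_⟩
  have hdens := Pool.Agent.TH864.ZO.density_periodic hM (p := fun n => ¬ PRes P (n + M))
    (H := {n : ℕ | PHyp P n}) (S := {n : ℕ | ¬ (PHyp P n ↔ ¬ PRes P n)}) (n₀ := 1)
    (fun n m hnm => not_congr (hper _ _ (by omega) (by omega) (hnm.add_right M)))
    (Pool.Agent.TH864.ZO.density_of_window hwin) (by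
      intro n hn hS
      simp only [Set.mem_ofPred_eq, not_not] at hS
      show PHyp P n ↔ ¬ PRes P (n + M)
      rw [hS]
      exact not_congr (hper _ _ hn (by omega) (by simp [Nat.ModEq])))
  have hcard : {a : ℕ | a < M ∧ ¬ PRes P (a + M)}.ncard =
      {a : ℕ | 1 ≤ a ∧ a ≤ M ∧ ¬ PRes P a}.ncard := by
    refine Set.ncard_congr (fun a _ => if a = 0 then M else a) ?_ ?_ ?_
    · rintro a ⟨h1, h2⟩
      by_cases ha : a = 0
      · simp only [ha, if_true]
        refine ⟨hM, le_rfl, ?_⟩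
        rwa [ha, zero_add] at h2
      · simp only [ha, if_false]
        refine ⟨by omega, h1.le, ?_⟩
        intro h3
        exact h2 ((hper a (a + M) (by omega) (by omega) (by simp [Nat.ModEq])).1 h3)
    · rintro a b ⟨h1, -⟩ ⟨h2, -⟩ hab
      by_cases ha : a = 0 <;> by_cases hb : b = 0 <;> simp only [ha, hb, if_true, if_false] at hab
      · rw [ha, hb]
      · omega
      · omega
      · exact hab
    · rintro b ⟨h1, h2, h3⟩
      by_cases hb : b = M
      · refine ⟨0, ⟨hM, ?_⟩, by simp [hb]⟩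
        rw [zero_add, ← hb]; exact h3
      · refine ⟨b, ⟨by omega, ?_⟩, by simp [show b ≠ 0 by omega]⟩
        intro h4
        exact h3 ((hper b (b + M) h1 (by omega) (by simp [Nat.ModEq])).2 h4)
  rw [hcard] at hdens
  exact hdens

end Pool.Agent.Y296.CH
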